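import Pool.Agent.H93.PG3.Rigid
import Pool.Agent.H20.ProjTwoTrans

/-!
# Two-transitive groups on projective three-space: the block matrices of line stabilisers
-/

namespace Pool.Agent.H93.PG3

open Matrix Module Pool.Agent.H20.ProjTwoTrans

variable {F V : Type*} [Field F] [AddCommGroup V] [Module F V]

/-- `G` contains no nonidentity perspectivity. -/
def NoP (G : Subgroup (V ≃ₗ[F] V)) : Prop :=
  ∀ (f : Dual F V) (v : V), HasT G f v → f = 0 ∨ v = 0

/-- `G` contains the block upper triangular element `[A, B; 0, D]` with respect to `b`. -/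
def InG (G : Subgroup (V ≃ₗ[F] V)) (b : Basis (Fin 2 ⊕ Fin 2) F V) (A B D : M2 F) : Prop :=
  ∃ g ∈ G, LinearMap.toMatrix b b (g : V →ₗ[F] V) = fromBlocks A B 0 D

variable {G : Subgroup (V ≃ₗ[F] V)} {b : Basis (Fin 2 ⊕ Fin 2) F V}

lemma toMatrix_mul' (g g' : V ≃ₗ[F] V) : LinearMap.toMatrix b b ((g * g' : V ≃ₗ[F] V) : V →ₗ[F] V) =
    LinearMap.toMatrix b b (g : V →ₗ[F] V) * LinearMap.toMatrix b b (g' : V →ₗ[F] V) := by
  rw [← LinearMap.toMatrix_comp]
  rfl

lemma toMatrix_inv' (g : V ≃ₗ[F] V) : LinearMap.toMatrix b b ((g⁻¹ : V ≃ₗ[F] V) : V →ₗ[F] V) =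
    (LinearMap.toMatrix b b (g : V →ₗ[F] V))⁻¹ := by
  symm
  apply Matrix.inv_eq_right_inv
  rw [← toMatrix_mul', mul_inv_cancel]
  exact LinearMap.toMatrix_id b

lemma apply_basis (g : V ≃ₗ[F] V) (k : Fin 2 ⊕ Fin 2) :
    g (b k) = ∑ l, (LinearMap.toMatrix b b (g : V →ₗ[F] V)) l k • b l := by
  conv_lhs => rw [← b.sum_repr (g (b k))]
  apply Finset.sum_congr rfl
  intro l _
  rw [LinearMap.toMatrix_apply]
  rfl

lemma apply_inl {g : V ≃ₗ[F] V} {A B D : M2 F}
    (h : LinearMap.toMatrix b b (g : V →ₗ[F] V) = fromBlocks A B 0 D) (j : Fin 2) :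
    g (b (Sum.inl j)) = A 0 j • b (Sum.inl 0) + A 1 j • b (Sum.inl 1) := by
  rw [apply_basis, h]
  simp [Fintype.sum_sum_type, Fin.sum_univ_two]

lemma apply_inr {g : V ≃ₗ[F] V} {A B D : M2 F}
    (h : LinearMap.toMatrix b b (g : V →ₗ[F] V) = fromBlocks A B 0 D) (j : Fin 2) :
    g (b (Sum.inr j)) = B 0 j • b (Sum.inl 0) + B 1 j • b (Sum.inl 1) +
      (D 0 j • b (Sum.inr 0) + D 1 j • b (Sum.inr 1)) := by
  rw [apply_basis, h]
  simp [Fintype.sum_sum_type, Fin.sum_univ_two]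

lemma InG.mul {A B D A' B' D' : M2 F} (h : InG G b A B D) (h' : InG G b A' B' D') :
    InG G b (A * A') (A * B' + B * D') (D * D') := by
  obtain ⟨g, hg, e⟩ := h
  obtain ⟨g', hg', e'⟩ := h'
  refine ⟨g * g', G.mul_mem hg hg', ?_⟩
  rw [toMatrix_mul', e, e', fromBlocks_multiply]
  simp

lemma det_ne {g : V ≃ₗ[F] V} {A B D : M2 F}
    (h : LinearMap.toMatrix b b (g : V →ₗ[F] V) = fromBlocks A B 0 D) :
    A.det ≠ 0 ∧ D.det ≠ 0 := by
  have h1 := LinearEquiv.isUnit_det g b b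
  rw [h, det_fromBlocks_zero₂₁] at h1
  exact ⟨left_ne_zero_of_mul h1.ne_zero, right_ne_zero_of_mul h1.ne_zero⟩

lemma InG.det {A B D : M2 F} (h : InG G b A B D) : A.det ≠ 0 ∧ D.det ≠ 0 := by
  obtain ⟨g, -, e⟩ := h
  exact det_ne e

lemma InG.inv {A B D : M2 F} (h : InG G b A B D) :
    InG G b A⁻¹ (-(A⁻¹ * B * D⁻¹)) D⁻¹ := by
  obtain ⟨h1, h2⟩ := h.det
  obtain ⟨g, hg, e⟩ := h
  refine ⟨g⁻¹, G.inv_mem hg, ?_⟩
  rw [toMatrix_inv', e]
  apply Matrix.inv_fromBlocks_zero₂₁_of_isUnit_iff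
  rw [Matrix.isUnit_iff_isUnit_det, Matrix.isUnit_iff_isUnit_det, isUnit_iff_ne_zero,
    isUnit_iff_ne_zero]
  exact ⟨fun _ => h2, fun _ => h1⟩

lemma InG.smul (hG : TwoTrans G) {A B D : M2 F} {c : F} (hc : c ≠ 0) (h : InG G b A B D) :
    InG G b (c • A) (c • B) (c • D) := by
  obtain ⟨g, hg, e⟩ := h
  obtain ⟨z, hz, ez⟩ := hG.scalar c hc
  refine ⟨z * g, G.mul_mem hz hg, ?_⟩
  have : ((z * g : V ≃ₗ[F] V) : V →ₗ[F] V) = c • (g : V →ₗ[F] V) := by
    ext x
    simp [ez]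
  rw [this, map_smul, e, fromBlocks_smul]
  simp

/-- elements of `G` in block form -/
lemma exists_InG {g : V ≃ₗ[F] V} (hg : g ∈ G) {A : M2 F}
    (h : ∀ j, g (b (Sum.inl j)) = A 0 j • b (Sum.inl 0) + A 1 j • b (Sum.inl 1)) :
    ∃ B D, InG G b A B D ∧ LinearMap.toMatrix b b (g : V →ₗ[F] V) = fromBlocks A B 0 D := by
  set M := LinearMap.toMatrix b b (g : V →ₗ[F] V) with hM
  have h11 : M.toBlocks₁₁ = A := by
    ext i j
    simp only [toBlocks₁₁, of_apply, hM, LinearMap.toMatrix_apply, LinearEquiv.coe_coe, h, map_add,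
      map_smul, Basis.repr_self]
    fin_cases i <;> simp [Finsupp.single_apply]
  have h21 : M.toBlocks₂₁ = 0 := by
    ext i j
    simp only [toBlocks₂₁, of_apply, hM, LinearMap.toMatrix_apply, LinearEquiv.coe_coe, h, map_add,
      map_smul, Basis.repr_self]
    simp [Finsupp.single_apply]
  have h0 : M = fromBlocks A M.toBlocks₁₂ 0 M.toBlocks₂₂ := by
    conv_lhs => rw [← fromBlocks_toBlocks M, h11, h21]
  exact ⟨_, _, ⟨g, hg, h0⟩, h0⟩

lemma indep_inl (b : Basis (Fin 2 ⊕ Fin 2) F V) :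
    LinearIndependent F ![b (Sum.inl 0), b (Sum.inl 1)] := by
  rw [LinearIndependent.pair_iff]
  intro s t hst
  have h0 := congrArg (fun x => b.repr x (Sum.inl 0)) hst
  have h1 := congrArg (fun x => b.repr x (Sum.inl 1)) hst
  simp [Finsupp.single_apply] at h0 h1
  exact ⟨h0, h1⟩

lemma exists_U (hG : TwoTrans G) (b : Basis (Fin 2 ⊕ Fin 2) F V) (a : F) :
    ∃ B D, InG G b (U a) B D := by
  obtain ⟨k, hk, h1, h2⟩ := exists_unip hG (indep_inl b) a
  obtain ⟨B, D, h, -⟩ := exists_InG (b := b) (A := U a) hk (by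
    intro j
    fin_cases j
    · simp [U, h1]
    · simp [U, h2, add_comm])
  exact ⟨B, D, h⟩

lemma exists_L (hG : TwoTrans G) (b : Basis (Fin 2 ⊕ Fin 2) F V) (a : F) :
    ∃ B D, InG G b (L a) B D := by
  obtain ⟨k, hk, h1, h2⟩ := exists_unip hG (indep_swap (indep_inl b)) a
  obtain ⟨B, D, h, -⟩ := exists_InG (b := b) (A := L a) hk (by
    intro j
    fin_cases j
    · simp [L, h2]
    · simp [L, h1])
  exact ⟨B, D, h⟩

/-- no element of rank one off a scalar -/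
lemma rankOne (hG : TwoTrans G) (hP : NoP G) {A B D : M2 F} (h : InG G b A B D) {c : F}
    (hc : c ≠ 0) {u w : Fin 2 ⊕ Fin 2 → F}
    (e : fromBlocks A B 0 D = c • (1 : Matrix (Fin 2 ⊕ Fin 2) (Fin 2 ⊕ Fin 2) F) + vecMulVec u w) :
    u = 0 ∨ w = 0 := by
  obtain ⟨g, hg, eg⟩ := h
  obtain ⟨z, hz, ez⟩ := hG.scalar c⁻¹ (inv_ne_zero hc)
  have key : HasT G (∑ k, (c⁻¹ * w k) • b.coord k) (∑ l, u l • b l) := by
    refine ⟨z * g, G.mul_mem hz hg, fun x => ?_⟩
    apply b.repr.injective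
    ext i
    have h1 := congrFun (LinearMap.toMatrix_mulVec_repr b b (g : V →ₗ[F] V) x) i
    rw [eg, e, Matrix.add_mulVec, Matrix.smul_mulVec, Matrix.one_mulVec] at h1
    rw [LinearEquiv.mul_apply, ez, map_smul, Finsupp.smul_apply, smul_eq_mul]
    have h2 : b.repr (g x) i = c * b.repr x i + u i * ∑ k, w k * b.repr x k := by
      have : (b.repr (g x)) i = (b.repr ((g : V →ₗ[F] V) x)) i := rfl
      rw [this, ← h1]
      simp only [Pi.add_apply, Pi.smul_apply, smul_eq_mul, Matrix.mulVec, dotProduct, vecMulVec_apply,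
        Finset.mul_sum]
      congr 1
      apply Finset.sum_congr rfl
      intro k _
      ring
    rw [h2]
    simp only [map_add, map_smul, map_sum, Finsupp.add_apply, Finsupp.smul_apply, smul_eq_mul,
      LinearMap.sum_apply, LinearMap.smul_apply, Basis.coord_apply, Finsupp.finset_sum_apply,
      Basis.repr_self, Finsupp.single_apply]
    simp
    field_simp
  rcases hP _ _ key with h1 | h1
  · right
    ext k
    have := congrArg (fun φ : Dual F V => φ (b k)) h1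
    rcases k with k | k <;> fin_cases k <;>
      simpa [LinearMap.sum_apply, Finsupp.single_apply, hc] using this
  · left
    ext k
    have := congrArg (fun x => b.repr x k) h1
    rcases k with k | k <;> fin_cases k <;>
      simpa [Finsupp.single_apply] using this

/-- The matrices `A` with `[A, *; 0, 1]` in `G` are scalars. -/
theorem scalar_of_right_one (hG : TwoTrans G) (hP : NoP G) {t₀ : F} (ht₀ : t₀ ≠ 0)
    (ht : t₀ ^ 4 ≠ 1) (ht3 : t₀ ^ 3 ≠ 1) (b : Basis (Fin 2 ⊕ Fin 2) F V) {A B : M2 F} (h : InG G b A B 1) :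
    ∃ c : F, A = c • (1 : M2 F) := by
  by_contra hA
  -- closure properties of the set of such matrices
  have cmul : ∀ {X Y : M2 F}, (∃ B, InG G b X B 1) → (∃ B, InG G b Y B 1) →
      ∃ B, InG G b (X * Y) B 1 := by
    rintro X Y ⟨B, hX⟩ ⟨B', hY⟩
    exact ⟨_, by simpa using hX.mul hY⟩
  have cinv : ∀ {X : M2 F}, (∃ B, InG G b X B 1) → ∃ B, InG G b X⁻¹ B 1 := by
    rintro X ⟨B, hX⟩
    have := hX.inv
    rw [inv_one] at this
    exact ⟨_, this⟩
  have cconj : ∀ {X Y : M2 F}, (∃ B, InG G b X B 1) → (∃ B D, InG G b Y B D) →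
      ∃ B, InG G b (Y * X * Y⁻¹) B 1 := by
    rintro X Y ⟨B, hX⟩ ⟨B', D', hY⟩
    have h1 := (hY.mul hX).mul hY.inv
    have hu : IsUnit D'.det := isUnit_iff_ne_zero.mpr hY.det.2
    have e1 : D' * 1 * D'⁻¹ = 1 := by rw [Matrix.mul_one, Matrix.mul_nonsing_inv _ hu]
    rw [e1] at h1
    exact ⟨_, h1⟩
  have eU := exists_U hG b
  have eL := exists_L hG b
  have eW : ∀ {a : F}, a ≠ 0 → ∃ B D, InG G b (W a) B D := by
    intro a ha
    obtain ⟨B1, D1, h1⟩ := eU a
    obtain ⟨B2, D2, h2⟩ := eL (-a⁻¹)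
    rw [← ULU ha]
    exact ⟨_, _, (h1.mul h2).mul h1⟩
  have eH : ∀ {a : F}, a ≠ 0 → ∃ B D, InG G b (H a) B D := by
    intro a ha
    obtain ⟨B1, D1, h1⟩ := eW ha
    obtain ⟨B2, D2, h2⟩ := eW (a := -1) (by simp)
    rw [← WW]
    exact ⟨_, _, h1.mul h2⟩
  -- a nonscalar element with nonzero lower left entry
  obtain ⟨A1, hA1, hr1⟩ : ∃ A1 : M2 F, (∃ B, InG G b A1 B 1) ∧ A1 1 0 ≠ 0 := by
    obtain ⟨p, q, r, s, rfl⟩ : ∃ p q r s, A = !![p, q; r, s] :=
      ⟨A 0 0, A 0 1, A 1 0, A 1 1, by ext i j; fin_cases i <;> fin_cases j <;> rfl⟩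
    by_cases hr : r = 0
    · subst hr
      by_cases hq : q = 0
      · subst hq
        refine ⟨_, cconj ⟨_, h⟩ (eL 1), ?_⟩
        intro h0
        apply hA
        refine ⟨p, ?_⟩
        rw [L_inv] at h0
        simp [L] at h0
        ext i j
        fin_cases i <;> fin_cases j <;> simp
        linear_combination -h0
      · refine ⟨_, cconj ⟨_, h⟩ (eW one_ne_zero), ?_⟩
        rw [W_inv one_ne_zero]
        simp [W, hq]
    · exact ⟨_, ⟨_, h⟩, hr⟩
  -- normalise the upper left entry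
  obtain ⟨q, r, s, hA2, hr⟩ : ∃ q r s : F, (∃ B, InG G b !![0, q; r, s] B 1) ∧ r ≠ 0 := by
    obtain ⟨p, q, r, s, rfl⟩ : ∃ p q r s, A1 = !![p, q; r, s] :=
      ⟨A1 0 0, A1 0 1, A1 1 0, A1 1 1, by ext i j; fin_cases i <;> fin_cases j <;> rfl⟩
    have hr : r ≠ 0 := hr1
    have h1 := cconj hA1 (eU (-(p / r)))
    have e1 : U (-(p / r)) * !![p, q; r, s] * (U (-(p / r)))⁻¹ =
        !![0, q - p / r * s; r, r * (p / r) + s] := by
      rw [U_inv]
      ext i j
      fin_cases i <;> fin_cases j <;> simp [U] <;> field_simp <;> ring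
    rw [e1] at h1
    exact ⟨_, _, _, h1, hr⟩
  have hq : q ≠ 0 := by
    obtain ⟨B', hB'⟩ := hA2
    have := hB'.det.1
    rw [Matrix.det_fin_two] at this
    simp at this
    exact this.1
  -- a lower triangular element
  obtain ⟨κ, hY⟩ : ∃ κ : F, ∃ B, InG G b !![t₀ ^ 2, 0; κ, (t₀ ^ 2)⁻¹] B 1 := by
    have h1 := cmul (cconj hA2 (eH ht₀)) (cinv hA2)
    have e0 : (!![0, q; r, s] : M2 F)⁻¹ = !![-s / (q * r), r⁻¹; q⁻¹, 0] := by
      apply Matrix.inv_eq_right_inv
      ext i j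
      fin_cases i <;> fin_cases j <;> simp <;> field_simp <;> ring
    have e1 : H t₀ * !![0, q; r, s] * (H t₀)⁻¹ * (!![0, q; r, s] : M2 F)⁻¹ =
        !![t₀ ^ 2, 0; s / q * (1 - (t₀ ^ 2)⁻¹), (t₀ ^ 2)⁻¹] := by
      rw [H_inv ht₀, e0]
      ext i j
      fin_cases i <;> fin_cases j <;> simp [H] <;> field_simp <;> ring
    rw [e1] at h1
    exact ⟨_, h1⟩
  -- all transvections
  have hL : ∀ x : F, ∃ B, InG G b (L x) B 1 := by
    intro x
    have hd : 1 - (t₀ ^ 4)⁻¹ ≠ 0 := by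
      intro h0
      apply ht
      have : (t₀ ^ 4)⁻¹ = 1 := (sub_eq_zero.mp h0).symm
      exact inv_eq_one.mp this
    set y := x / (1 - (t₀ ^ 4)⁻¹) with hy
    have hxy : x = y * (1 - (t₀ ^ 4)⁻¹) := (div_mul_cancel₀ x hd).symm
    have h1 := cmul (cconj hY (eL y)) (cinv hY)
    have e0 : (!![t₀ ^ 2, 0; κ, (t₀ ^ 2)⁻¹] : M2 F)⁻¹ = !![(t₀ ^ 2)⁻¹, 0; -κ, t₀ ^ 2] := by
      apply Matrix.inv_eq_right_inv
      ext i j
      fin_cases i <;> fin_cases j <;> simp <;> field_simp <;> ring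
    have e1 : L y * !![t₀ ^ 2, 0; κ, (t₀ ^ 2)⁻¹] * (L y)⁻¹ *
        (!![t₀ ^ 2, 0; κ, (t₀ ^ 2)⁻¹] : M2 F)⁻¹ = L x := by
      rw [L_inv, e0, hxy]
      ext i j
      fin_cases i <;> fin_cases j <;> simp [L] <;> field_simp <;> ring
    rwa [e1] at h1
  have hU : ∀ x : F, ∃ B, InG G b (U x) B 1 := by
    intro x
    have h1 := cconj (hL (-x)) (eW one_ne_zero)
    have e1 : W 1 * L (-x) * (W (1 : F))⁻¹ = U x := by
      rw [W_inv one_ne_zero]
      simp [W, L, U]
    rwa [e1] at h1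
  have hW : ∀ {a : F}, a ≠ 0 → ∃ B, InG G b (W a) B 1 := by
    intro a ha
    rw [← ULU ha]
    exact cmul (cmul (hU a) (hL (-a⁻¹))) (hU a)
  have hH : ∀ {a : F}, a ≠ 0 → ∃ B, InG G b (H a) B 1 := by
    intro a ha
    rw [← WW]
    exact cmul (hW ha) (hW (by simp))
  -- no unipotents
  have conjT : ∀ {S X B : M2 F}, InG G b S X 1 → InG G b 1 B 1 → InG G b 1 (S * B) 1 := by
    intro S X B hS hB
    have h1 := (hS.mul hB).mul hS.inv
    have hu : IsUnit S.det := isUnit_iff_ne_zero.mpr hS.det.1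
    have e1 : S * 1 * -(S⁻¹ * X * 1⁻¹) + (S * B + X * 1) * 1⁻¹ = S * B := by
      simp only [inv_one, Matrix.mul_one, Matrix.mul_neg, ← Matrix.mul_assoc,
        Matrix.mul_nonsing_inv _ hu, Matrix.one_mul]
      abel
    rw [e1, Matrix.mul_one, Matrix.mul_nonsing_inv _ hu, Matrix.mul_one, inv_one,
      Matrix.mul_one] at h1
    exact h1
  have subT : ∀ {S B B' : M2 F}, InG G b S B 1 → InG G b S B' 1 → InG G b 1 (B - B') 1 := by
    intro S B B' hB hB'
    have h1 := hB.mul hB'.inv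
    have hu : IsUnit S.det := isUnit_iff_ne_zero.mpr hB.det.1
    have e1 : S * -(S⁻¹ * B' * 1⁻¹) + B * 1⁻¹ = B - B' := by
      simp only [inv_one, Matrix.mul_one, Matrix.mul_neg, ← Matrix.mul_assoc,
        Matrix.mul_nonsing_inv _ hu, Matrix.one_mul]
      abel
    rw [e1, Matrix.mul_nonsing_inv _ hu, inv_one, Matrix.mul_one] at h1
    exact h1
  have hT : ∀ {B : M2 F}, InG G b 1 B 1 → B = 0 := by
    intro B hB
    obtain ⟨X, hX⟩ := hU 1
    obtain ⟨Y, hY⟩ := hL 1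
    have h1 := subT (conjT hX hB) hB
    have h2 := subT (conjT hY hB) hB
    obtain ⟨p, q, r, s, rfl⟩ : ∃ p q r s, B = !![p, q; r, s] :=
      ⟨B 0 0, B 0 1, B 1 0, B 1 1, by ext i j; fin_cases i <;> fin_cases j <;> rfl⟩
    have e1 := rankOne hG hP h1 (c := 1) one_ne_zero
      (u := Sum.elim ![1, 0] ![0, 0]) (w := Sum.elim ![0, 0] ![r, s]) (by
        ext i j
        rcases i with i | i <;> rcases j with j | j <;> fin_cases i <;> fin_cases j <;>
          simp [U, vecMulVec_apply])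
    have e2 := rankOne hG hP h2 (c := 1) one_ne_zero
      (u := Sum.elim ![0, 1] ![0, 0]) (w := Sum.elim ![0, 0] ![p, q]) (by
        ext i j
        rcases i with i | i <;> rcases j with j | j <;> fin_cases i <;> fin_cases j <;>
          simp [L, vecMulVec_apply])
    have e1' := e1.resolve_left (fun h0 => by
      have := congrFun h0 (Sum.inl 0)
      simp at this)
    have e2' := e2.resolve_left (fun h0 => by
      have := congrFun h0 (Sum.inl 1)
      simp at this)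
    have r0 := congrFun e1' (Sum.inr 0)
    have s0 := congrFun e1' (Sum.inr 1)
    have p0 := congrFun e2' (Sum.inr 0)
    have q0 := congrFun e2' (Sum.inr 1)
    simp at r0 s0 p0 q0
    rw [r0, s0, p0, q0]
    ext i j
    fin_cases i <;> fin_cases j <;> rfl
  have huniq : ∀ {S B B' : M2 F}, InG G b S B 1 → InG G b S B' 1 → B = B' :=
    fun hB hB' => sub_eq_zero.mp (hT (subT hB hB'))
  -- the second row of the upper right block of the lift of `U x`
  choose β hβ using hU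
  have hadd : ∀ x y j, β (x + y) 1 j = β x 1 j + β y 1 j := by
    intro x y j
    have h1 := (hβ x).mul (hβ y)
    rw [U_mul, Matrix.mul_one, Matrix.mul_one] at h1
    rw [huniq (hβ _) h1, Matrix.add_apply, Matrix.mul_apply, Fin.sum_univ_two]
    simp [U, add_comm]
  have hconj : ∀ (a x : F) (j : Fin 2), a ≠ 0 → β (a ^ 2 * x) 1 j = a⁻¹ * β x 1 j := by
    intro a x j ha
    obtain ⟨X, hX⟩ := hH ha
    have h1 := hX.mul (hβ x)
    have h2 := (hβ (a ^ 2 * x)).mul hX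
    rw [H_conj_U ha, Matrix.mul_one, Matrix.mul_one] at h1
    rw [Matrix.mul_one, Matrix.mul_one] at h2
    have h3 := huniq h1 h2
    have h4 := congrFun (congrFun h3 1) j
    rw [Matrix.add_apply, Matrix.add_apply, Matrix.mul_apply, Matrix.mul_apply,
      Fin.sum_univ_two, Fin.sum_univ_two] at h4
    simp [U, H] at h4
    linear_combination -h4
  have hzero : ∀ j, β 1 1 j = 0 := by
    intro j
    by_contra hr
    have h1 := hconj t₀ 1 j ht₀
    have h2 := hconj (-t₀) 1 j (neg_ne_zero.mpr ht₀)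
    rw [neg_sq, h1] at h2
    have h3 : (2 : F) = 0 := by
      have h4 : 2 * (t₀⁻¹ * β 1 1 j) = 0 := by
        rw [inv_neg] at h2
        linear_combination h2
      exact (mul_eq_zero.mp h4).resolve_right (mul_ne_zero (inv_ne_zero ht₀) hr)
    have ht1 : t₀ + 1 ≠ 0 := by
      intro h0
      apply ht
      have : t₀ = -1 := by linear_combination h0
      rw [this]
      norm_num
    have h5 := hconj (t₀ + 1) 1 j ht1
    have h6 : (t₀ + 1) ^ 2 * 1 = t₀ ^ 2 * 1 + 1 := by linear_combination t₀ * h3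
    rw [h6, hadd, h1] at h5
    have h7 : t₀⁻¹ + 1 = (t₀ + 1)⁻¹ := by
      have : (t₀⁻¹ + 1) * β 1 1 j = (t₀ + 1)⁻¹ * β 1 1 j := by linear_combination h5
      exact mul_right_cancel₀ hr this
    field_simp at h7
    apply ht3
    have h8 : t₀ ^ 2 + t₀ + 1 = 0 := by linear_combination h7
    linear_combination (t₀ - 1) * h8
  have hfin := rankOne hG hP (hβ 1) (c := 1) one_ne_zero
      (u := Sum.elim ![1, 0] ![0, 0]) (w := Sum.elim ![0, 1] ![β 1 0 0, β 1 0 1]) (by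
        ext i j
        rcases i with i | i <;> rcases j with j | j <;> fin_cases i <;> fin_cases j <;>
          simp [U, vecMulVec_apply, hzero])
  rcases hfin with h0 | h0
  · have := congrFun h0 (Sum.inl 0)
    simp at this
  · have := congrFun h0 (Sum.inl 1)
    simp at this

end Pool.Agent.H93.PG3
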