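import Pool.Agent.H93.PG3.Lines

/-!
# Normalised bases

For every line there is a basis adapted to it such that the stabiliser acts on the quotient by the
Galois conjugate of its action on the line.
-/

namespace Pool.Agent.H93.PG3

open Matrix Module Pool.Agent.H20.ProjTwoTrans

variable {F V : Type*} [Field F] [AddCommGroup V] [Module F V]
variable {G : Subgroup (V ≃ₗ[F] V)} {b : Basis (Fin 2 ⊕ Fin 2) F V}

lemma relG (h4 : finrank F V = 4) (hG : TwoTrans G) (hP : NoP G) {t₀ : F} (ht : Gen t₀)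
    (b : Basis (Fin 2 ⊕ Fin 2) F V) : Rel (fun A D => ∃ B, InG G b A B D) where
  mul := by
    rintro A D A' D' ⟨B, h⟩ ⟨B', h'⟩
    exact ⟨_, h.mul h'⟩
  inv := by
    rintro A D ⟨B, h⟩
    exact ⟨_, h.inv⟩
  det := by
    rintro A D ⟨B, h⟩
    exact h.det
  smul := by
    rintro A D c hc ⟨B, h⟩
    exact ⟨_, h.smul hG hc⟩
  left := by
    rintro D ⟨B, h⟩
    exact scalar_of_left_one h4 hG hP ht h
  right := by
    rintro A ⟨B, h⟩
    exact scalar_of_right_one hG hP ht.ne ht.four ht.three b h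
  upper := by
    intro a
    obtain ⟨B, D, h⟩ := exists_U hG b a
    exact ⟨D, B, h⟩
  lower := by
    intro a
    obtain ⟨B, D, h⟩ := exists_L hG b a
    exact ⟨D, B, h⟩

/-- change of basis -/
lemma exists_chg (b : Basis (Fin 2 ⊕ Fin 2) F V) (S : Matrix (Fin 2 ⊕ Fin 2) (Fin 2 ⊕ Fin 2) F)
    (hS : IsUnit S.det) : ∃ b' : Basis (Fin 2 ⊕ Fin 2) F V, (∀ j, b' j = ∑ i, S i j • b i) ∧
      ∀ g : V →ₗ[F] V, LinearMap.toMatrix b' b' g = S⁻¹ * LinearMap.toMatrix b b g * S := by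
  set e := Matrix.toLinearEquiv b S hS with he
  have h1 : ∀ j, b.map e j = ∑ i, S i j • b i := by
    intro j
    rw [Basis.map_apply, he]
    exact Matrix.toLin_self b b S j
  have h2 : b.toMatrix (b.map e) = S := by
    ext i j
    rw [Basis.toMatrix_apply, h1]
    rw [map_sum, Finsupp.finsetSum_apply]
    simp only [map_smul, Basis.repr_self, Finsupp.smul_apply, Finsupp.single_apply, smul_eq_mul,
      mul_ite, mul_one, mul_zero]
    simp [Finset.sum_ite_eq']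
  have h3 : (b.map e).toMatrix b = S⁻¹ := by
    symm
    apply Matrix.inv_eq_left_inv
    rw [← h2]
    exact Basis.toMatrix_mul_toMatrix_flip _ _
  refine ⟨b.map e, h1, fun g => ?_⟩
  rw [← basis_toMatrix_mul_linearMap_toMatrix_mul_basis_toMatrix (b.map e) b (b.map e) b g, h2, h3]

/-- The lifts of transvections act on the quotient by conjugate transvections. -/
structure Exact (G : Subgroup (V ≃ₗ[F] V)) (b : Basis (Fin 2 ⊕ Fin 2) F V) (σ : F →+* F) :
    Prop where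
  up : ∀ a, ∃ B, InG G b (U a) B (U (σ a))
  lo : ∀ a, ∃ B, InG G b (L a) B (L (σ a))

lemma Exact.W {σ : F →+* F} (h : Exact G b σ) {a : F} (ha : a ≠ 0) :
    ∃ B, InG G b (W a) B (W (σ a)) := by
  obtain ⟨B1, h1⟩ := h.up a
  obtain ⟨B2, h2⟩ := h.lo (-a⁻¹)
  have hσ : σ a ≠ 0 := by simpa using ha
  have h3 := (h1.mul h2).mul h1
  rw [map_neg, map_inv₀, ULU ha, ULU hσ] at h3
  exact ⟨_, h3⟩

lemma Exact.H {σ : F →+* F} (h : Exact G b σ) {a : F} (ha : a ≠ 0) :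
    ∃ B, InG G b (H a) B (H (σ a)) := by
  obtain ⟨B1, h1⟩ := h.W ha
  obtain ⟨B2, h2⟩ := h.W (a := -1) (by simp)
  have h3 := h1.mul h2
  rw [WW, map_neg, map_one, WW] at h3
  exact ⟨_, h3⟩

theorem exists_exact (h4 : finrank F V = 4) (hG : TwoTrans G) (hP : NoP G) {t₀ : F} (ht : Gen t₀)
    (b : Basis (Fin 2 ⊕ Fin 2) F V) : ∃ (b' : Basis (Fin 2 ⊕ Fin 2) F V) (σ : F →+* F),
      (∀ j, b' (Sum.inl j) = b (Sum.inl j)) ∧ Exact G b' σ := by
  obtain ⟨Q, σ, hQ, h1, h2⟩ := (relG h4 hG hP ht b).rigid ht.ne ht.four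
  have hu : IsUnit Q.det := isUnit_iff_ne_zero.mpr hQ
  set S : Matrix (Fin 2 ⊕ Fin 2) (Fin 2 ⊕ Fin 2) F := fromBlocks 1 0 0 Q with hS
  have hSu : IsUnit S.det := by
    rw [hS, det_fromBlocks_zero₂₁, det_one, one_mul]
    exact hu
  have hSinv : S⁻¹ = fromBlocks 1 0 0 Q⁻¹ := by
    apply Matrix.inv_eq_right_inv
    rw [hS, fromBlocks_multiply]
    simp [Matrix.mul_nonsing_inv _ hu]
  obtain ⟨b', hb', hM⟩ := exists_chg b S hSu
  have key : ∀ {A B D : M2 F}, InG G b A B (Q * D * Q⁻¹) → InG G b' A (B * Q) D := by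
    rintro A B D ⟨g, hg, e⟩
    refine ⟨g, hg, ?_⟩
    rw [hM, e, hSinv, hS, fromBlocks_multiply, fromBlocks_multiply]
    have e1 : Q⁻¹ * (Q * D * Q⁻¹) * Q = D := by
      calc Q⁻¹ * (Q * D * Q⁻¹) * Q = (Q⁻¹ * Q) * D * (Q⁻¹ * Q) := by simp only [Matrix.mul_assoc]
        _ = D := by rw [Matrix.nonsing_inv_mul _ hu, Matrix.one_mul, Matrix.mul_one]
    simp only [Matrix.one_mul, Matrix.zero_mul, Matrix.mul_zero, add_zero, zero_add,
      Matrix.mul_one, e1]
  refine ⟨b', σ, ?_, ?_, ?_⟩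
  · intro j
    rw [hb']
    rcases fin2 j with rfl | rfl <;> simp [hS, Fintype.sum_sum_type, Fin.sum_univ_two]
  · intro a
    obtain ⟨B, h⟩ := h1 a
    exact ⟨_, key h⟩
  · intro a
    obtain ⟨B, h⟩ := h2 a
    exact ⟨_, key h⟩

end Pool.Agent.H93.PG3
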