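import Pool.Agent.H93.PG3.Core

/-!
# Elements acting as scalars on a line or on the quotient by a line
-/

namespace Pool.Agent.H93.PG3

open Matrix Module Pool.Agent.H20.ProjTwoTrans

variable {F V : Type*} [Field F] [AddCommGroup V] [Module F V]
variable {G : Subgroup (V ≃ₗ[F] V)} {b : Basis (Fin 2 ⊕ Fin 2) F V}

lemma fin2 (j : Fin 2) : j = 0 ∨ j = 1 := by
  fin_cases j
  · exact Or.inl rfl
  · exact Or.inr rfl

/-- A good parameter. -/
structure Gen (t : F) : Prop where
  ne : t ≠ 0
  four : t ^ 4 ≠ 1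
  three : t ^ 3 ≠ 1
  six : (t + 1) ^ 3 * (1 + t ^ 3) ≠ t ^ 3

lemma exists_gen [Infinite F] : ∃ t : F, Gen t := by
  open Polynomial in
  let p : F[X] := X * (X ^ 4 - 1) * (X ^ 3 - 1) * ((X + 1) ^ 3 * (1 + X ^ 3) - X ^ 3)
  have hp : p ≠ 0 := by
    have h1 : (X : F[X]) ≠ 0 := X_ne_zero
    have h2 : (X ^ 4 - 1 : F[X]) ≠ 0 := by
      intro h
      have := congrArg (Polynomial.eval 0) h
      simp at this
    have h3 : (X ^ 3 - 1 : F[X]) ≠ 0 := by
      intro h
      have := congrArg (Polynomial.eval 0) h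
      simp at this
    have h4 : ((X + 1) ^ 3 * (1 + X ^ 3) - X ^ 3 : F[X]) ≠ 0 := by
      intro h
      have := congrArg (Polynomial.eval 0) h
      simp at this
    exact mul_ne_zero (mul_ne_zero (mul_ne_zero h1 h2) h3) h4
  obtain ⟨t, ht⟩ : ∃ t : F, p.eval t ≠ 0 := by
    by_contra hcon
    push Not at hcon
    apply hp
    apply Polynomial.funext
    intro r
    rw [hcon r, Polynomial.eval_zero]
  simp only [p, Polynomial.eval_mul, Polynomial.eval_sub, Polynomial.eval_pow, Polynomial.eval_X,
    Polynomial.eval_one, Polynomial.eval_add, mul_ne_zero_iff] at ht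
  obtain ⟨⟨⟨h1, h2⟩, h3⟩, h4⟩ := ht
  exact ⟨t, h1, sub_ne_zero.mp h2, sub_ne_zero.mp h3, sub_ne_zero.mp h4⟩

lemma exists_basis (h4 : finrank F V = 4) {v w : V} (h : LinearIndependent F ![v, w]) :
    ∃ b : Basis (Fin 2 ⊕ Fin 2) F V, b (Sum.inl 0) = v ∧ b (Sum.inl 1) = w := by
  have : FiniteDimensional F V := FiniteDimensional.of_finrank_pos (by omega)
  set W := Submodule.span F (Set.range ![v, w]) with hW
  have hfW : finrank F W = 2 := by
    rw [hW, finrank_span_eq_card h]
    simp
  have hfQ : finrank F (V ⧸ W) = 2 := by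
    have := Submodule.finrank_quotient_add_finrank W
    omega
  let c : Basis (Fin 2) F (V ⧸ W) := Module.finBasisOfFinrankEq F _ hfQ
  have hsurj := Submodule.mkQ_surjective W
  choose g hg using fun i => hsurj (c i)
  have hmem : ∀ i, (![v, w] : Fin 2 → V) i ∈ W := fun i => Submodule.subset_span ⟨i, rfl⟩
  let f : Fin 2 → W := fun i => ⟨![v, w] i, hmem i⟩
  have hf : LinearIndependent F f := by
    apply LinearIndependent.of_comp W.subtype
    exact h
  have hgi : LinearIndependent F (Submodule.Quotient.mk (p := W) ∘ g) := by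
    have : (Submodule.Quotient.mk (p := W) ∘ g) = c := by
      funext i
      exact hg i
    rw [this]
    exact c.linearIndependent
  have hind := LinearIndependent.sumElim_of_quotient hf g hgi
  let b : Basis (Fin 2 ⊕ Fin 2) F V := basisOfLinearIndependentOfCardEqFinrank hind (by simp [h4])
  refine ⟨b, ?_, ?_⟩
  · simp [b, f]
  · simp [b, f]

lemma mem_span_iff (b : Basis (Fin 2 ⊕ Fin 2) F V) (x : V) :
    x ∈ Submodule.span F {b (Sum.inl 0), b (Sum.inl 1)} ↔ ∀ i, b.repr x (Sum.inr i) = 0 := by
  rw [Submodule.mem_span_pair]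
  constructor
  · rintro ⟨s, t, rfl⟩ i
    simp
  · intro h
    refine ⟨b.repr x (Sum.inl 0), b.repr x (Sum.inl 1), ?_⟩
    conv_rhs => rw [← b.sum_repr x, Fintype.sum_sum_type, Fin.sum_univ_two, Fin.sum_univ_two]
    rw [h, h]
    simp

/-- An element acting trivially on the quotient by a line acts as a scalar on the line. -/
lemma scalar_on_line (h4 : finrank F V = 4) (hG : TwoTrans G) (hP : NoP G) {t₀ : F} (ht : Gen t₀)
    {g : V ≃ₗ[F] V} (hg : g ∈ G) {v w : V} (h : LinearIndependent F ![v, w])
    (hq : ∀ x, g x - x ∈ Submodule.span F {v, w}) : ∃ c : F, g v = c • v ∧ g w = c • w := by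
  obtain ⟨b, rfl, rfl⟩ := exists_basis h4 h
  have h1 : ∀ x, ∀ i, b.repr (g x) (Sum.inr i) = b.repr x (Sum.inr i) := by
    intro x i
    have := (mem_span_iff b _).mp (hq x) i
    rw [map_sub, Finsupp.sub_apply] at this
    exact sub_eq_zero.mp this
  have hexp : ∀ j, g (b (Sum.inl j)) = b.repr (g (b (Sum.inl j))) (Sum.inl 0) • b (Sum.inl 0) +
      b.repr (g (b (Sum.inl j))) (Sum.inl 1) • b (Sum.inl 1) := by
    intro j
    conv_lhs => rw [← b.sum_repr (g (b (Sum.inl j)))]
    rw [Fintype.sum_sum_type, Fin.sum_univ_two, Fin.sum_univ_two, h1, h1]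
    simp
  set A : M2 F := Matrix.of fun i j => b.repr (g (b (Sum.inl j))) (Sum.inl i) with hA
  obtain ⟨B, D, hI, hM⟩ := exists_InG (b := b) (A := A) hg (by
    intro j
    rw [hexp j]
    simp [hA])
  have hD : D = 1 := by
    ext i j
    have h2 := congrFun (congrFun hM (Sum.inr i)) (Sum.inr j)
    rw [LinearMap.toMatrix_apply, fromBlocks_apply₂₂] at h2
    rw [← h2, LinearEquiv.coe_coe, h1]
    simp [Matrix.one_apply, Finsupp.single_apply, eq_comm]
  subst hD
  obtain ⟨c, hc⟩ := scalar_of_right_one hG hP ht.ne ht.four ht.three b hI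
  have e := apply_inl hM
  rw [hc] at e
  refine ⟨c, ?_, ?_⟩
  · simpa using e 0
  · simpa using e 1

/-- An element acting trivially on a line acts as a scalar on the quotient by the line. -/
lemma scalar_of_left_one (h4 : finrank F V = 4) (hG : TwoTrans G) (hP : NoP G) {t₀ : F}
    (ht : Gen t₀) {B D : M2 F} (h : InG G b 1 B D) : ∃ c : F, D = c • (1 : M2 F) := by
  obtain ⟨g, hg, hM⟩ := h
  -- the two vectors spanning the image of `g - 1`
  set n : Fin 2 → V := fun j => g (b (Sum.inr j)) - b (Sum.inr j) with hn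
  have hgl : ∀ j, g (b (Sum.inl j)) = b (Sum.inl j) := by
    intro j
    rw [apply_inl hM]
    rcases fin2 j with rfl | rfl <;> simp
  have hg1 : ∀ x, g x - x = b.repr x (Sum.inr 0) • n 0 + b.repr x (Sum.inr 1) • n 1 := by
    intro x
    conv_lhs => rw [← b.sum_repr x]
    simp only [Fintype.sum_sum_type, Fin.sum_univ_two, map_add, map_smul, hgl, hn]
    module
  by_cases hind : LinearIndependent F ![n 0, n 1]
  · obtain ⟨c, hc0, hc1⟩ := scalar_on_line h4 hG hP ht hg hind (by
      intro x
      rw [hg1 x]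
      exact Submodule.mem_span_pair.mpr ⟨_, _, rfl⟩)
    refine ⟨c, ?_⟩
    have key : ∀ j, g (n j) - n j = (D 0 j - (1 : M2 F) 0 j) • n 0 + (D 1 j - (1 : M2 F) 1 j) • n 1 := by
      intro j
      rw [hg1 (n j)]
      simp only [hn]
      rw [map_sub, apply_inr hM]
      rcases fin2 j with rfl | rfl <;> simp
    have hcn : ∀ j, g (n j) = c • n j := by
      intro j
      fin_cases j
      · exact hc0
      · exact hc1
    rw [LinearIndependent.pair_iff] at hind
    have k0 := hind (D 0 0 - 1 - (c - 1)) (D 1 0) (by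
      have := key 0
      rw [hcn] at this
      simp at this
      have e : (D 0 0 - 1 - (c - 1)) • n 0 + D 1 0 • n 1 =
        ((D 0 0 - 1) • n 0 + D 1 0 • n 1) - (c • n 0 - n 0) := by module
      rw [e, this, sub_self])
    have k1 := hind (D 0 1) (D 1 1 - 1 - (c - 1)) (by
      have := key 1
      rw [hcn] at this
      simp at this
      have e : D 0 1 • n 0 + (D 1 1 - 1 - (c - 1)) • n 1 =
        (D 0 1 • n 0 + (D 1 1 - 1) • n 1) - (c • n 1 - n 1) := by module
      rw [e, this, sub_self])
    ext i j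
    fin_cases i <;> fin_cases j <;> simp
    · linear_combination k0.1
    · exact k1.1
    · exact k0.2
    · linear_combination k1.2
  · -- rank one
    obtain ⟨n', α, β, hα, hβ⟩ : ∃ (n' : V) (α β : F), n 0 = α • n' ∧ n 1 = β • n' := by
      by_cases h0 : n 0 = 0
      · exact ⟨n 1, 0, 1, by simp [h0], by simp⟩
      · rw [LinearIndependent.pair_iff' h0] at hind
        push Not at hind
        obtain ⟨a, ha⟩ := hind
        exact ⟨n 0, 1, a, by simp, ha.symm⟩
    have hT : HasT G (α • b.coord (Sum.inr 0) + β • b.coord (Sum.inr 1)) n' := by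
      refine ⟨g, hg, fun x => ?_⟩
      have := hg1 x
      rw [hα, hβ] at this
      rw [← sub_eq_iff_eq_add', this]
      simp only [LinearMap.add_apply, LinearMap.smul_apply, Basis.coord_apply, smul_eq_mul]
      module
    have hzero : n 0 = 0 ∧ n 1 = 0 := by
      rcases hP _ _ hT with h0 | h0
      · have e0 := congrArg (fun φ : Dual F V => φ (b (Sum.inr 0))) h0
        have e1 := congrArg (fun φ : Dual F V => φ (b (Sum.inr 1))) h0
        simp at e0 e1
        rw [hα, hβ, e0, e1]
        simp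
      · rw [hα, hβ, h0]
        simp
    refine ⟨1, ?_⟩
    have key : ∀ i j, D i j = (1 : M2 F) i j := by
      intro i j
      have e1 : g (b (Sum.inr j)) = b (Sum.inr j) := by
        have : n j = 0 := by rcases fin2 j with rfl | rfl; exacts [hzero.1, hzero.2]
        exact sub_eq_zero.mp this
      have h2 := congrFun (congrFun hM (Sum.inr i)) (Sum.inr j)
      rw [LinearMap.toMatrix_apply, fromBlocks_apply₂₂, LinearEquiv.coe_coe, e1] at h2
      rw [← h2]
      simp [Matrix.one_apply, Finsupp.single_apply, eq_comm]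
    ext i j
    rw [key, one_smul]

end Pool.Agent.H93.PG3
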