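import Pool.Agent.H93.PG3.Exact

/-!
# Every two-transitive group on projective three-space over an infinite field has perspectivities
-/

namespace Pool.Agent.H93.PG3

open Matrix Module Pool.Agent.H20.ProjTwoTrans

variable {F V : Type*} [Field F] [AddCommGroup V] [Module F V]
variable {G : Subgroup (V ≃ₗ[F] V)} {b : Basis (Fin 2 ⊕ Fin 2) F V}

lemma repr_inr {g : V ≃ₗ[F] V} {A B D : M2 F}
    (h : LinearMap.toMatrix b b (g : V →ₗ[F] V) = fromBlocks A B 0 D) (x : V) (i : Fin 2) :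
    b.repr (g x) (Sum.inr i) = D i 0 * b.repr x (Sum.inr 0) + D i 1 * b.repr x (Sum.inr 1) := by
  have h1 := congrFun (LinearMap.toMatrix_mulVec_repr b b (g : V →ₗ[F] V) x) (Sum.inr i)
  rw [h] at h1
  rw [LinearEquiv.coe_coe] at h1
  rw [← h1]
  simp [Matrix.mulVec, dotProduct, Fintype.sum_sum_type, Fin.sum_univ_two]

/-- An element acting trivially on a line acts as a scalar on the quotient. -/
lemma scalar_on_quot (h4 : finrank F V = 4) (hG : TwoTrans G) (hP : NoP G) {t₀ : F} (ht : Gen t₀)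
    {g : V ≃ₗ[F] V} (hg : g ∈ G) {v w : V} (h : LinearIndependent F ![v, w]) (hv : g v = v)
    (hw : g w = w) : ∃ c : F, ∀ x, g x - c • x ∈ Submodule.span F {v, w} := by
  obtain ⟨b, rfl, rfl⟩ := exists_basis h4 h
  obtain ⟨B, D, hI, hM⟩ := exists_InG (b := b) (A := 1) hg (by
    intro j
    rcases fin2 j with rfl | rfl
    · simp [hv]
    · simp [hw])
  obtain ⟨c, rfl⟩ := scalar_of_left_one h4 hG hP ht hI
  refine ⟨c, fun x => ?_⟩
  rw [mem_span_iff]
  intro i
  rw [map_sub, map_smul, Finsupp.sub_apply, Finsupp.smul_apply, repr_inr hM]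
  rcases fin2 i with rfl | rfl <;> simp

/-- a unipotent element in block form -/
lemma of_InG_one {B : M2 F} (hB : B ≠ 0) (h : InG G b 1 B 1) :
    ∃ g ∈ G, g ≠ 1 ∧ g (b (Sum.inl 0)) = b (Sum.inl 0) ∧ g (b (Sum.inl 1)) = b (Sum.inl 1) ∧
      ∀ x, g x - (1 : F) • x ∈ Submodule.span F {b (Sum.inl 0), b (Sum.inl 1)} := by
  obtain ⟨g, hg, e⟩ := h
  refine ⟨g, hg, ?_, ?_, ?_, ?_⟩
  · rintro rfl
    apply hB
    have h1 : LinearMap.toMatrix b b ((1 : V ≃ₗ[F] V) : V →ₗ[F] V) = 1 := LinearMap.toMatrix_id b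
    rw [h1, ← fromBlocks_one, fromBlocks_inj] at e
    exact e.2.1.symm
  · rw [apply_inl e]
    simp
  · rw [apply_inl e]
    simp
  · intro x
    rw [mem_span_iff]
    intro i
    rw [one_smul, map_sub, Finsupp.sub_apply, repr_inr e]
    rcases fin2 i with rfl | rfl <;> simp

lemma transport (hG : TwoTrans G) {ν : F} {v w v' w' : V} (h : LinearIndependent F ![v, w])
    (h' : LinearIndependent F ![v', w']) {g : V ≃ₗ[F] V} (hg : g ∈ G) (hv : g v = v) (hw : g w = w)
    (hq : ∀ x, g x - ν • x ∈ Submodule.span F {v, w}) :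
    ∃ g' ∈ G, (g ≠ 1 → g' ≠ 1) ∧ g' v' = v' ∧ g' w' = w' ∧
      ∀ x, g' x - ν • x ∈ Submodule.span F {v', w'} := by
  obtain ⟨k, hk, hkv, c, hc, hkw⟩ := hG.trans v w v' w' h h'
  have e1 : k.symm v' = v := by rw [LinearEquiv.symm_apply_eq, hkv]
  have e2 : k.symm w' = c⁻¹ • w := by
    rw [LinearEquiv.symm_apply_eq, map_smul, hkw, smul_smul, inv_mul_cancel₀ hc, one_smul]
  have e3 : ∀ x, (k * g * k⁻¹) x = k (g (k.symm x)) := fun x => rfl
  refine ⟨k * g * k⁻¹, G.mul_mem (G.mul_mem hk hg) (G.inv_mem hk), ?_, ?_, ?_, ?_⟩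
  · intro hne h1
    apply hne
    have : k * g = k := by
      calc k * g = k * g * k⁻¹ * k := by group
        _ = k := by rw [h1, one_mul]
    exact mul_eq_left.mp this
  · rw [e3, e1, hv, hkv]
  · rw [e3, e2, map_smul, hw, map_smul, hkw, smul_smul, inv_mul_cancel₀ hc, one_smul]
  · intro x
    rw [e3]
    obtain ⟨s, t, hst⟩ := Submodule.mem_span_pair.mp (hq (k.symm x))
    have : k (g (k.symm x)) - ν • x = k (g (k.symm x) - ν • k.symm x) := by
      rw [map_sub, map_smul, LinearEquiv.apply_symm_apply]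
    rw [this, ← hst, map_add, map_smul, map_smul, hkv, hkw, Submodule.mem_span_pair]
    exact ⟨s, t * c, by module⟩

/-- If the unipotent group of a line is nontrivial, the field endomorphism is the identity. -/
lemma sigma_eq_id (hG : TwoTrans G) (hP : NoP G) {σ : F →+* F} (hE : Exact G b σ) {B : M2 F}
    (hB : B ≠ 0) (h : InG G b 1 B 1) (x : F) : σ x = x := by
  have sub : ∀ {B B' : M2 F}, InG G b 1 B 1 → InG G b 1 B' 1 → InG G b 1 (B - B') 1 := by
    intro B B' h h'
    have := h.mul h'.inv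
    simp only [inv_one, Matrix.one_mul, Matrix.mul_one] at this
    rwa [neg_add_eq_sub] at this
  have conjU : ∀ {B : M2 F} (a : F), InG G b 1 B 1 → InG G b 1 (U a * B * U (-σ a)) 1 := by
    intro B a h
    obtain ⟨X, hX⟩ := hE.up a
    have h1 := (hX.mul h).mul hX.inv
    rw [U_inv, U_inv] at h1
    have e1 : U a * 1 * U (-a) = 1 := by rw [Matrix.mul_one, U_mul, add_neg_cancel, U_zero]
    have e2 : U (σ a) * 1 * U (-σ a) = 1 := by rw [Matrix.mul_one, U_mul, add_neg_cancel, U_zero]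
    have e3 : U a * 1 * -(U (-a) * X * U (-σ a)) + (U a * B + X * 1) * U (-σ a) =
        U a * B * U (-σ a) := by
      have e4 : U a * (U (-a) * X * U (-σ a)) = X * U (-σ a) := by
        rw [← Matrix.mul_assoc, ← Matrix.mul_assoc, U_mul, add_neg_cancel, U_zero, Matrix.one_mul]
      rw [Matrix.mul_one, Matrix.mul_one, Matrix.mul_neg, e4, Matrix.add_mul]
      abel
    rwa [e1, e2, e3] at h1
  -- upper triangular elements
  have tri : ∀ {p q s : F}, InG G b 1 !![p, q; 0, s] 1 → !![p, q; 0, s] ≠ (0 : M2 F) →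
      ∀ x, σ x = x := by
    intro p q s h hne x
    have single : ∀ {y : F}, InG G b 1 !![0, y; 0, 0] 1 → y = 0 := by
      intro y hy
      have := rankOne hG hP hy (c := 1) one_ne_zero
        (u := Sum.elim ![1, 0] ![0, 0]) (w := Sum.elim ![0, 0] ![0, y]) (by
          ext i j
          rcases i with i | i <;> rcases j with j | j <;> fin_cases i <;> fin_cases j <;>
            simp [vecMulVec_apply])
      rcases this with h0 | h0
      · have := congrFun h0 (Sum.inl 0)
        simp at this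
      · simpa using congrFun h0 (Sum.inr 1)
    have key : ∀ a, a * s = σ a * p := by
      intro a
      have h1 := sub (conjU a h) h
      have e1 : U a * !![p, q; 0, s] * U (-σ a) - !![p, q; 0, s] = !![0, a * s - σ a * p; 0, 0] := by
        ext i j
        fin_cases i <;> fin_cases j <;> simp [U] <;> ring
      rw [e1] at h1
      exact sub_eq_zero.mp (single h1)
    have hps : s = p := by
      have := key 1
      rw [map_one] at this
      simpa using this
    subst hps
    by_cases hs : s = 0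
    · subst hs
      have hq := single h
      exact absurd (by rw [hq]; ext i j; fin_cases i <;> fin_cases j <;> rfl) hne
    · exact (mul_right_cancel₀ hs (key x)).symm
  obtain ⟨p, q, r, s, rfl⟩ : ∃ p q r s, B = !![p, q; r, s] :=
    ⟨B 0 0, B 0 1, B 1 0, B 1 1, by ext i j; fin_cases i <;> fin_cases j <;> rfl⟩
  by_cases hr : r = 0
  · subst hr
    exact tri h hB x
  · have h1 := sub (conjU 1 h) h
    have e1 : U 1 * !![p, q; r, s] * U (-σ 1) - !![p, q; r, s] =
        !![r, s - p - r; 0, -r] := by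
      rw [map_one]
      ext i j
      fin_cases i <;> fin_cases j <;> simp [U] <;> ring
    rw [e1] at h1
    refine tri h1 (fun h0 => hr ?_) x
    have := congrFun (congrFun h0 0) 0
    simpa using this

/-- Some nonidentity element acts trivially on a line and on the quotient by the line. -/
lemma exists_T (h4 : finrank F V = 4) (hG : TwoTrans G) (hP : NoP G) {t₀ : F} (ht : Gen t₀)
    (b₀ : Basis (Fin 2 ⊕ Fin 2) F V) :
    ∃ v w : V, LinearIndependent F ![v, w] ∧ ∃ g ∈ G, g ≠ 1 ∧ g v = v ∧ g w = w ∧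
      ∀ x, g x - (1 : F) • x ∈ Submodule.span F {v, w} := by
  obtain ⟨b, σ, -, hE⟩ := exists_exact h4 hG hP ht b₀
  by_cases hT : ∃ B : M2 F, B ≠ 0 ∧ InG G b 1 B 1
  · obtain ⟨B, hB, h⟩ := hT
    exact ⟨_, _, indep_inl b, of_InG_one hB h⟩
  push Not at hT
  have huniq : ∀ {A B B' D : M2 F}, InG G b A B D → InG G b A B' D → B = B' := by
    intro A B B' D h h'
    by_contra hne
    have h1 := h.mul h'.inv
    have hA : IsUnit A.det := isUnit_iff_ne_zero.mpr h.det.1
    have hD : IsUnit D.det := isUnit_iff_ne_zero.mpr h.det.2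
    rw [Matrix.mul_nonsing_inv _ hA, Matrix.mul_nonsing_inv _ hD] at h1
    refine hT _ ?_ h1
    intro h0
    apply hne
    have e1 : A * -(A⁻¹ * B' * D⁻¹) + B * D⁻¹ = (B - B') * D⁻¹ := by
      rw [Matrix.mul_neg, ← Matrix.mul_assoc, ← Matrix.mul_assoc, Matrix.mul_nonsing_inv _ hA,
        Matrix.one_mul, Matrix.sub_mul]
      abel
    rw [e1] at h0
    have : B - B' = 0 := by
      calc B - B' = (B - B') * D⁻¹ * D := by
            rw [Matrix.mul_assoc, Matrix.nonsing_inv_mul _ hD, Matrix.mul_one]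
        _ = 0 := by rw [h0, Matrix.zero_mul]
    exact sub_eq_zero.mp this
  choose β hβ using hE.up
  have hlin : ∀ x, x * β 1 1 0 = β x 1 0 := by
    intro x
    have h1 := (hβ x).mul (hβ 1)
    have h2 := (hβ 1).mul (hβ x)
    rw [U_mul, U_mul] at h1 h2
    rw [add_comm 1 x, add_comm (σ 1)] at h2
    have h3 := congrFun (congrFun (huniq h1 h2) 0) 0
    rw [Matrix.add_apply, Matrix.add_apply, Matrix.mul_apply, Matrix.mul_apply, Matrix.mul_apply,
      Matrix.mul_apply, Fin.sum_univ_two, Fin.sum_univ_two, Fin.sum_univ_two,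
      Fin.sum_univ_two] at h3
    simp [U] at h3
    linear_combination h3
  have hb0 : β 1 1 0 = 0 := by
    by_contra hne
    have key : ∀ a, a ≠ 0 → σ a * a ^ 3 = 1 := by
      intro a ha
      obtain ⟨X, hX⟩ := hE.H ha
      have h1 := hX.mul (hβ 1)
      have h2 := (hβ (a ^ 2 * 1)).mul hX
      have hσ : σ a ≠ 0 := by simpa using ha
      have e1 : σ (a ^ 2 * 1) = σ a ^ 2 * σ 1 := by simp
      rw [H_conj_U ha, H_conj_U hσ] at h1
      rw [e1] at h2
      have h3 := congrFun (congrFun (huniq h1 h2) 1) 0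
      rw [Matrix.add_apply, Matrix.add_apply, Matrix.mul_apply, Matrix.mul_apply, Matrix.mul_apply,
        Matrix.mul_apply, Fin.sum_univ_two, Fin.sum_univ_two, Fin.sum_univ_two,
        Fin.sum_univ_two] at h3
      simp [U, H] at h3
      have h5 : (a⁻¹ - a ^ 2 * σ a) * β 1 1 0 = 0 := by
        linear_combination h3 - σ a * hlin (a ^ 2)
      have h6 := (mul_eq_zero.mp h5).resolve_right hne
      have h7 : a⁻¹ = a ^ 2 * σ a := sub_eq_zero.mp h6
      calc σ a * a ^ 3 = a * (a ^ 2 * σ a) := by ring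
        _ = 1 := by rw [← h7, mul_inv_cancel₀ ha]
    have ht1 : t₀ + 1 ≠ 0 := by
      intro h0
      apply ht.four
      have : t₀ = -1 := by linear_combination h0
      rw [this]
      norm_num
    have k1 := key t₀ ht.ne
    have k2 := key (t₀ + 1) ht1
    rw [map_add, map_one] at k2
    apply ht.six
    linear_combination (t₀ ^ 3) * k2 - (t₀ + 1) ^ 3 * k1
  -- the transvection lift has a two-dimensional fixed space
  obtain ⟨g, hg, e⟩ := hβ 1
  rw [map_one] at e
  have hi0 := apply_inl e 0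
  have hi1 := apply_inl e 1
  have hr0 := apply_inr e 0
  have hr1 := apply_inr e 1
  rw [hb0] at hr0
  simp [U] at hi0 hi1 hr0 hr1
  set p := β 1 0 0 with hp
  set w := b (Sum.inr 0) - p • b (Sum.inl 1) with hw
  have hgw : g w = w := by
    rw [hw, map_sub, map_smul, hr0, hi1]
    module
  have hind : LinearIndependent F ![b (Sum.inl 0), w] := by
    rw [LinearIndependent.pair_iff]
    intro s t hst
    have h0 := congrArg (fun x => b.repr x (Sum.inl 0)) hst
    have h1 := congrArg (fun x => b.repr x (Sum.inr 0)) hst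
    simp [hw] at h0 h1
    exact ⟨h0, h1⟩
  obtain ⟨c, hc⟩ := scalar_on_quot h4 hG hP ht hg hind hi0 hgw
  have hc1 : c = 1 := by
    obtain ⟨s, t, hst⟩ := Submodule.mem_span_pair.mp (hc (b (Sum.inl 1)))
    have h0 := congrArg (fun x => b.repr x (Sum.inr 0)) hst
    have h1 := congrArg (fun x => b.repr x (Sum.inl 1)) hst
    simp [hw, hi1] at h0 h1
    rw [h0] at h1
    simp at h1
    linear_combination h1
  subst hc1
  refine ⟨_, _, hind, g, hg, ?_, hi0, hgw, hc⟩
  rintro rfl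
  have h0 := congrArg (fun x => b.repr x (Sum.inl 0)) hi1
  simp at h0

/-- for every line some nonidentity element acts trivially on it and on the quotient -/
lemma exists_unipotent (h4 : finrank F V = 4) (hG : TwoTrans G) (hP : NoP G) {t₀ : F}
    (ht : Gen t₀) (b : Basis (Fin 2 ⊕ Fin 2) F V) : ∃ B : M2 F, B ≠ 0 ∧ InG G b 1 B 1 := by
  obtain ⟨v, w, h, g, hg, hg1, hv, hw, hq⟩ := exists_T h4 hG hP ht b
  obtain ⟨g', hg', hne, hv', hw', hq'⟩ := transport hG h (indep_inl b) hg hv hw hq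
  obtain ⟨B, D, hI, hM⟩ := exists_InG (b := b) (A := 1) hg' (by
    intro j
    rcases fin2 j with rfl | rfl
    · simp [hv']
    · simp [hw'])
  have hD : D = 1 := by
    ext i j
    have h1 := (mem_span_iff b _).mp (hq' (b (Sum.inr j))) i
    rw [map_sub, map_smul, Finsupp.sub_apply, Finsupp.smul_apply, repr_inr hM] at h1
    rcases fin2 i with rfl | rfl <;> rcases fin2 j with rfl | rfl <;> simp at h1 ⊢
    · exact sub_eq_zero.mp h1
    · exact h1
    · exact h1
    · exact sub_eq_zero.mp h1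
  subst hD
  refine ⟨B, ?_, hI⟩
  rintro rfl
  apply hne hg1
  apply LinearEquiv.toLinearMap_injective
  apply b.ext
  intro k
  rcases k with k | k
  · rcases fin2 k with rfl | rfl
    · exact hv'
    · exact hw'
  · have := apply_inr hM k
    rcases fin2 k with rfl | rfl <;> simpa using this

/-- An element acting on a line as a unipotent up to scalars acts on the quotient with a double
eigenvalue. -/
lemma double (h4 : finrank F V = 4) (hG : TwoTrans G) (hP : NoP G) {t₀ : F} (ht : Gen t₀)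
    {g : V ≃ₗ[F] V} (hg : g ∈ G) {v w : V} (h : LinearIndependent F ![v, w]) {a s : F}
    (ha : a ≠ 0) (hv : g v = a • v) (hw : g w = a • w + s • v) :
    ∃ ν : F, ∀ x, g (g x) - (2 * ν) • g x + ν ^ 2 • x ∈ Submodule.span F {v, w} := by
  obtain ⟨b₀, rfl, rfl⟩ := exists_basis h4 h
  obtain ⟨b, σ, hb, hE⟩ := exists_exact h4 hG hP ht b₀
  rw [← hb 0, ← hb 1] at *
  obtain ⟨z, hz, ez⟩ := hG.scalar a⁻¹ (inv_ne_zero ha)
  obtain ⟨B, D, hI, hM⟩ := exists_InG (b := b) (A := U (s / a)) (G.mul_mem hz hg) (by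
    intro j
    rw [LinearEquiv.mul_apply, ez]
    rcases fin2 j with rfl | rfl
    · rw [hv, smul_smul, inv_mul_cancel₀ ha]
      simp [U]
    · rw [hw, smul_add, smul_smul, smul_smul, inv_mul_cancel₀ ha]
      simp [U]
      rw [add_comm, div_eq_inv_mul])
  obtain ⟨c, hc, rfl⟩ := (relG h4 hG hP ht b).uniq (hE.up (s / a)) ⟨B, hI⟩
  refine ⟨a * c, fun x => ?_⟩
  rw [mem_span_iff]
  have hgz : ∀ (x : V) (i : Fin 2), b.repr (g x) (Sum.inr i) =
      a * b.repr ((z * g) x) (Sum.inr i) := by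
    intro x i
    rw [LinearEquiv.mul_apply, ez, map_smul, Finsupp.smul_apply, smul_eq_mul, ← mul_assoc,
      mul_inv_cancel₀ ha, one_mul]
  have h0 : ∀ x : V, b.repr (g x) (Sum.inr 0) =
      a * c * (b.repr x (Sum.inr 0) + σ (s / a) * b.repr x (Sum.inr 1)) := by
    intro x
    rw [hgz, repr_inr hM]
    simp [U]
    ring
  have h1 : ∀ x : V, b.repr (g x) (Sum.inr 1) = a * c * b.repr x (Sum.inr 1) := by
    intro x
    rw [hgz, repr_inr hM]
    simp [U]
    ring
  intro i
  rw [map_add, map_sub, map_smul, map_smul, Finsupp.add_apply, Finsupp.sub_apply,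
    Finsupp.smul_apply, Finsupp.smul_apply, smul_eq_mul, smul_eq_mul]
  rcases fin2 i with rfl | rfl
  · rw [h0 (g x), h0 x, h1 x]
    ring
  · rw [h1 (g x), h1 x]
    ring

/-- From an element acting as a unipotent on a line and with the double eigenvalue `ν` on the
quotient we get one acting trivially on the line and as the scalar `ν` on the quotient. -/
lemma exists_scalar (h4 : finrank F V = 4) (hG : TwoTrans G) (hP : NoP G) {t₀ : F} (ht : Gen t₀)
    {g : V ≃ₗ[F] V} (hg : g ∈ G) {v w : V} (h : LinearIndependent F ![v, w]) {s ν : F}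
    (hv : g v = v) (hw : g w = w + s • v)
    (hν : ∀ x, g (g x) - (2 * ν) • g x + ν ^ 2 • x ∈ Submodule.span F {v, w}) :
    ∃ k ∈ G, k v = v ∧ k w = w ∧ ∀ x, k x - ν • x ∈ Submodule.span F {v, w} := by
  obtain ⟨b₀, rfl, rfl⟩ := exists_basis h4 h
  obtain ⟨b, σ, hb, hE⟩ := exists_exact h4 hG hP ht b₀
  rw [← hb 0, ← hb 1] at *
  obtain ⟨B, D, hI, hM⟩ := exists_InG (b := b) (A := U s) hg (by
    intro j
    rcases fin2 j with rfl | rfl
    · rw [hv]
      simp [U]
    · rw [hw]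
      simp [U, add_comm])
  obtain ⟨c, hc, rfl⟩ := (relG h4 hG hP ht b).uniq (hE.up s) ⟨B, hI⟩
  have hcν : c = ν := by
    have h1 := (mem_span_iff b _).mp (hν (b (Sum.inr 1))) 1
    rw [map_add, map_sub, map_smul, map_smul, Finsupp.add_apply, Finsupp.sub_apply,
      Finsupp.smul_apply, Finsupp.smul_apply, smul_eq_mul, smul_eq_mul, repr_inr hM (g _),
      repr_inr hM, repr_inr hM] at h1
    simp [U] at h1
    have h2 : (c - ν) ^ 2 = 0 := by linear_combination h1
    exact sub_eq_zero.mp (pow_eq_zero_iff two_ne_zero |>.mp h2)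
  subst hcν
  obtain ⟨X, u, hu, eu⟩ := hE.up s
  refine ⟨g * u⁻¹, G.mul_mem hg (G.inv_mem hu), ?_⟩
  have hM' : LinearMap.toMatrix b b ((g * u⁻¹ : V ≃ₗ[F] V) : V →ₗ[F] V) =
      fromBlocks 1 (U s * -(U (-s) * X * U (-σ s)) + B * U (-σ s)) 0 (c • (1 : M2 F)) := by
    have hInv : (fromBlocks (U s) X 0 (U (σ s)))⁻¹ =
        fromBlocks (U (-s)) (-(U (-s) * X * U (-σ s))) 0 (U (-σ s)) := by
      have := Matrix.inv_fromBlocks_zero₂₁_of_isUnit_iff (U s) X (U (σ s)) (by
        rw [Matrix.isUnit_iff_isUnit_det, Matrix.isUnit_iff_isUnit_det]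
        simp [U])
      rw [this, U_inv, U_inv]
    rw [toMatrix_mul', toMatrix_inv', hM, eu, hInv, fromBlocks_multiply]
    simp only [Matrix.zero_mul, Matrix.mul_zero, add_zero, zero_add, U_mul, add_neg_cancel, U_zero,
      Matrix.smul_mul]
  refine ⟨?_, ?_, ?_⟩
  · rw [apply_inl hM']
    simp
  · rw [apply_inl hM']
    simp
  · intro x
    rw [mem_span_iff]
    intro i
    rw [map_sub, map_smul, Finsupp.sub_apply, Finsupp.smul_apply, repr_inr hM']
    rcases fin2 i with rfl | rfl <;> simp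

/-- Over an infinite field every two-transitive group in dimension four contains a nonidentity
perspectivity. -/
theorem exists_perspectivity [Infinite F] (h4 : finrank F V = 4) (hG : TwoTrans G) : ¬ NoP G := by
  intro hP
  obtain ⟨a, ht⟩ := exists_gen (F := F)
  have ha := ht.ne
  have : FiniteDimensional F V := FiniteDimensional.of_finrank_pos (by omega)
  let b₀ : Basis (Fin 2 ⊕ Fin 2) F V :=
    (Module.finBasisOfFinrankEq F V h4).reindex (finSumFinEquiv (m := 2) (n := 2)).symm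
  obtain ⟨b, σ, -, hE⟩ := exists_exact h4 hG hP ht b₀
  obtain ⟨T, hT0, hT⟩ := exists_unipotent h4 hG hP ht b
  have hσ : ∀ x, σ x = x := sigma_eq_id hG hP hE hT0 hT
  obtain ⟨B, g, hg, e⟩ := hE.H ha
  rw [hσ] at e
  have hi0 := apply_inl e 0
  have hi1 := apply_inl e 1
  have hr0 := apply_inr e 0
  have hr1 := apply_inr e 1
  simp [H] at hi0 hi1 hr0 hr1
  have hd : a⁻¹ - a ≠ 0 := by
    intro h0
    have h1 : a⁻¹ = a := sub_eq_zero.mp h0
    have h2 : a * a = 1 := by
      nth_rw 2 [← h1]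
      exact mul_inv_cancel₀ ha
    apply ht.four
    calc a ^ 4 = (a * a) * (a * a) := by ring
      _ = 1 := by rw [h2]; ring
  -- coordinates of `g x`
  have c0 : ∀ x : V, b.repr (g x) (Sum.inr 0) = a * b.repr x (Sum.inr 0) := by
    intro x
    rw [repr_inr e]
    simp [H]
  have c1 : ∀ x : V, b.repr (g x) (Sum.inr 1) = a⁻¹ * b.repr x (Sum.inr 1) := by
    intro x
    rw [repr_inr e]
    simp [H]
  have c2 : ∀ x : V, b.repr (g x) (Sum.inl 1) = a⁻¹ * b.repr x (Sum.inl 1) +
      B 1 0 * b.repr x (Sum.inr 0) + B 1 1 * b.repr x (Sum.inr 1) := by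
    intro x
    have h1 := congrFun (LinearMap.toMatrix_mulVec_repr b b (g : V →ₗ[F] V) x) (Sum.inl 1)
    rw [e] at h1
    rw [LinearEquiv.coe_coe] at h1
    rw [← h1]
    simp [Matrix.mulVec, dotProduct, Fintype.sum_sum_type, Fin.sum_univ_two, H]
    ring
  set ρ := -(B 1 0) / (a⁻¹ - a) with hρ
  set w := b (Sum.inr 0) + ρ • b (Sum.inl 1) with hw
  have hind : LinearIndependent F ![b (Sum.inl 0), w] := by
    rw [LinearIndependent.pair_iff]
    intro s t hst
    have h0 := congrArg (fun x => b.repr x (Sum.inl 0)) hst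
    have h1 := congrArg (fun x => b.repr x (Sum.inr 0)) hst
    simp [hw] at h0 h1
    exact ⟨h0, h1⟩
  obtain ⟨z, hz, ez⟩ := hG.scalar a⁻¹ (inv_ne_zero ha)
  have hρ' : B 1 0 + ρ * (a⁻¹ - a) = 0 := by
    rw [hρ, div_mul_cancel₀ _ hd, add_neg_cancel]
  obtain ⟨k, hk, hk1, hk2, hk3⟩ := exists_scalar h4 hG hP ht (G.mul_mem hz hg) hind
    (s := a⁻¹ * B 0 0) (ν := a⁻¹ * a⁻¹)
    (by rw [LinearEquiv.mul_apply, ez, hi0, smul_smul, inv_mul_cancel₀ ha, one_smul])
    (by
      rw [LinearEquiv.mul_apply, ez, hw, map_add, map_smul, hr0, hi1]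
      have e1 : a⁻¹ * a = 1 := inv_mul_cancel₀ ha
      have e2 : a⁻¹ * (B 1 0 + ρ * a⁻¹) = ρ := by
        have : B 1 0 + ρ * a⁻¹ = ρ * a := by linear_combination hρ'
        rw [this, mul_comm ρ a, ← mul_assoc, e1, one_mul]
      calc a⁻¹ • (B 0 0 • b (Sum.inl 0) + B 1 0 • b (Sum.inl 1) + a • b (Sum.inr 0) +
            ρ • a⁻¹ • b (Sum.inl 1)) = (a⁻¹ * a) • b (Sum.inr 0) +
              (a⁻¹ * (B 1 0 + ρ * a⁻¹)) • b (Sum.inl 1) + (a⁻¹ * B 0 0) • b (Sum.inl 0) := by
            module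
        _ = _ := by rw [e1, e2, one_smul])
    (by
      intro x
      set X₂ := b.repr x (Sum.inl 1) with hX₂
      set X₃ := b.repr x (Sum.inr 0) with hX₃
      set X₄ := b.repr x (Sum.inr 1) with hX₄
      set y := (z * g) ((z * g) x) - (2 * (a⁻¹ * a⁻¹)) • (z * g) x + (a⁻¹ * a⁻¹) ^ 2 • x with hy
      have e1 : a⁻¹ * a = 1 := inv_mul_cancel₀ ha
      have zg : ∀ (x : V) (i : Fin 2 ⊕ Fin 2), b.repr ((z * g) x) i = a⁻¹ * b.repr (g x) i := by
        intro x i
        rw [LinearEquiv.mul_apply, ez, map_smul, Finsupp.smul_apply, smul_eq_mul]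
      have hy1 : b.repr y (Sum.inr 1) = 0 := by
        rw [hy]
        simp only [map_add, map_sub, map_smul, Finsupp.add_apply, Finsupp.sub_apply,
          Finsupp.smul_apply, smul_eq_mul, zg, c1]
        ring
      have hy0 : b.repr y (Sum.inr 0) = (1 - a⁻¹ * a⁻¹) ^ 2 * X₃ := by
        rw [hy]
        simp only [map_add, map_sub, map_smul, Finsupp.add_apply, Finsupp.sub_apply,
          Finsupp.smul_apply, smul_eq_mul, zg, c0]
        linear_combination (a⁻¹ * a * X₃ + X₃ - 2 * (a⁻¹ * a⁻¹) * X₃) * e1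
      have hy2 : b.repr y (Sum.inl 1) = ρ * b.repr y (Sum.inr 0) := by
        rw [hy0, hy]
        simp only [map_add, map_sub, map_smul, Finsupp.add_apply, Finsupp.sub_apply,
          Finsupp.smul_apply, smul_eq_mul, zg, c2, c1, c0]
        have e3 : a⁻¹ * B 1 0 = (1 - a⁻¹ * a⁻¹) * ρ := by
          linear_combination a⁻¹ * hρ' + ρ * e1
        linear_combination (1 - a⁻¹ * a⁻¹) * X₃ * e3 + (a⁻¹ * B 1 0 * X₃) * e1
      rw [Submodule.mem_span_pair]
      refine ⟨b.repr y (Sum.inl 0), b.repr y (Sum.inr 0), ?_⟩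
      conv_rhs => rw [← b.sum_repr y, Fintype.sum_sum_type, Fin.sum_univ_two, Fin.sum_univ_two]
      rw [hy1, hy2, hw]
      module)
  obtain ⟨k', hk', -, hk1', hk2', hk3'⟩ := transport hG hind (indep_inl b) hk hk1 hk2 hk3
  obtain ⟨p₁, p₂, hp⟩ := Submodule.mem_span_pair.mp (hk3' (b (Sum.inr 0)))
  obtain ⟨q₁, q₂, hq⟩ := Submodule.mem_span_pair.mp (hk3' (b (Sum.inr 1)))
  have hp' : k' (b (Sum.inr 0)) = p₁ • b (Sum.inl 0) + p₂ • b (Sum.inl 1) +
      (a⁻¹ * a⁻¹) • b (Sum.inr 0) := by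
    rw [hp]
    abel
  have hq' : k' (b (Sum.inr 1)) = q₁ • b (Sum.inl 0) + q₂ • b (Sum.inl 1) +
      (a⁻¹ * a⁻¹) • b (Sum.inr 1) := by
    rw [hq]
    abel
  have e1 : a⁻¹ * a = 1 := inv_mul_cancel₀ ha
  -- the product
  have f0 : (k' * g) (b (Sum.inl 0)) = a • b (Sum.inl 0) := by
    rw [LinearEquiv.mul_apply, hi0, map_smul, hk1']
  have f1 : (k' * g) (b (Sum.inl 1)) = a⁻¹ • b (Sum.inl 1) := by
    rw [LinearEquiv.mul_apply, hi1, map_smul, hk2']
  have f2 : (k' * g) (b (Sum.inr 0)) = (B 0 0 + a * p₁) • b (Sum.inl 0) +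
      (B 1 0 + a * p₂) • b (Sum.inl 1) + a⁻¹ • b (Sum.inr 0) := by
    rw [LinearEquiv.mul_apply, hr0, map_add, map_add, map_smul, map_smul, map_smul, hk1', hk2',
      hp']
    have : a⁻¹ = a * (a⁻¹ * a⁻¹) := by linear_combination -a⁻¹ * e1
    rw [show a⁻¹ • b (Sum.inr 0) = (a * (a⁻¹ * a⁻¹)) • b (Sum.inr 0) from by rw [← this]]
    module
  have f3 : (k' * g) (b (Sum.inr 1)) = (B 0 1 + a⁻¹ * q₁) • b (Sum.inl 0) +
      (B 1 1 + a⁻¹ * q₂) • b (Sum.inl 1) + (a⁻¹ * (a⁻¹ * a⁻¹)) • b (Sum.inr 1) := by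
    rw [LinearEquiv.mul_apply, hr1, map_add, map_add, map_smul, map_smul, map_smul, hk1', hk2',
      hq']
    module
  set c := B 0 0 + a * p₁ with hc
  set τ := c / (a⁻¹ - a) with hτ
  have hτ' : c = τ * (a⁻¹ - a) := (div_mul_cancel₀ c hd).symm
  set w' := b (Sum.inr 0) + τ • b (Sum.inl 0) with hw'
  have hind' : LinearIndependent F ![b (Sum.inl 1), w'] := by
    rw [LinearIndependent.pair_iff]
    intro s t hst
    have h0 := congrArg (fun x => b.repr x (Sum.inl 1)) hst
    have h1 := congrArg (fun x => b.repr x (Sum.inr 0)) hst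
    simp [hw'] at h0 h1
    exact ⟨h0, h1⟩
  obtain ⟨ν, hν⟩ := double h4 hG hP ht (G.mul_mem hk' hg) hind' (a := a⁻¹) (inv_ne_zero ha) f1
    (s := B 1 0 + a * p₂) (by
      rw [hw', map_add, map_smul, f2, f0, hτ']
      module)
  -- first coordinate
  have hν1 : ν = a := by
    obtain ⟨s, t, hst⟩ := Submodule.mem_span_pair.mp (hν (b (Sum.inl 0)))
    rw [f0, map_smul, f0] at hst
    have h0 := congrArg (fun x => b.repr x (Sum.inl 0)) hst
    have h1 := congrArg (fun x => b.repr x (Sum.inr 0)) hst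
    simp [hw'] at h0 h1
    rw [h1] at h0
    have h2 : (a - ν) ^ 2 = 0 := by linear_combination -h0
    have h3 := pow_eq_zero_iff two_ne_zero |>.mp h2
    linear_combination -h3
  have hν2 : ν = a⁻¹ * (a⁻¹ * a⁻¹) := by
    obtain ⟨s, t, hst⟩ := Submodule.mem_span_pair.mp (hν (b (Sum.inr 1)))
    rw [f3, map_add, map_add, map_smul, map_smul, map_smul, f0, f1, f3] at hst
    have h0 := congrArg (fun x => b.repr x (Sum.inr 1)) hst
    simp [hw'] at h0
    have h2 : (a⁻¹ * (a⁻¹ * a⁻¹) - ν) ^ 2 = 0 := by linear_combination -h0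
    have h3 := pow_eq_zero_iff two_ne_zero |>.mp h2
    linear_combination -h3
  apply ht.four
  rw [hν1] at hν2
  calc a ^ 4 = a ^ 3 * a := by ring
    _ = a ^ 3 * (a⁻¹ * (a⁻¹ * a⁻¹)) := by rw [← hν2]
    _ = 1 := by field_simp

end Pool.Agent.H93.PG3
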