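import Mathlib

/-!
# Projective homomorphisms from `SL(2, F)` to `PGL(2, F)`

A relation `R A D` between `2 × 2` matrices which is the graph (up to scalars) of an injective
homomorphism from a group between `PSL(2, F)` and `PGL(2, F)` into `PGL(2, F)`, `F` infinite, is
given by a field endomorphism after a change of basis.
-/

namespace Pool.Agent.H93.PG3

open Matrix

variable {F : Type*} [Field F]

/-- two by two matrices -/
abbrev M2 (F : Type*) := Matrix (Fin 2) (Fin 2) F

/-- upper unipotent matrices -/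
def U (a : F) : M2 F := !![1, a; 0, 1]

/-- lower unipotent matrices -/
def L (a : F) : M2 F := !![1, 0; a, 1]

/-- antidiagonal matrices -/
def W (a : F) : M2 F := !![0, a; -a⁻¹, 0]

/-- diagonal matrices of determinant one -/
def H (a : F) : M2 F := !![a, 0; 0, a⁻¹]

lemma U_mul (a b : F) : U a * U b = U (a + b) := by
  simp [U, add_comm]

lemma L_mul (a b : F) : L a * L b = L (a + b) := by
  simp [L, add_comm]

lemma U_zero : U (0 : F) = 1 := by
  simp [U, Matrix.one_fin_two]

lemma L_zero : L (0 : F) = 1 := by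
  simp [L, Matrix.one_fin_two]

lemma U_inv (a : F) : (U a)⁻¹ = U (-a) := by
  apply Matrix.inv_eq_right_inv
  rw [U_mul, add_neg_cancel, U_zero]

lemma L_inv (a : F) : (L a)⁻¹ = L (-a) := by
  apply Matrix.inv_eq_right_inv
  rw [L_mul, add_neg_cancel, L_zero]

lemma ULU {a : F} (ha : a ≠ 0) : U a * L (-a⁻¹) * U a = W a := by
  simp [U, L, W, ha]

lemma WW {a : F} : W a * W (-1) = H a := by
  simp [W, H]

lemma W_one : W (1 : F) = !![0, 1; -1, 0] := by simp [W]

lemma W_inv {a : F} (ha : a ≠ 0) : (W a)⁻¹ = W (-a) := by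
  apply Matrix.inv_eq_right_inv
  simp [W, ha, Matrix.one_fin_two]

lemma H_inv {a : F} (ha : a ≠ 0) : (H a)⁻¹ = H a⁻¹ := by
  apply Matrix.inv_eq_right_inv
  simp [H, ha, Matrix.one_fin_two]

lemma H_conj_U {a : F} (ha : a ≠ 0) (b : F) : H a * U b = U (a ^ 2 * b) * H a := by
  simp [H, U]
  field_simp

lemma H_conj_L {a : F} (ha : a ≠ 0) (b : F) : H a * L b = L (a⁻¹ ^ 2 * b) * H a := by
  simp [H, L]
  field_simp

lemma cayley (D : M2 F) : D * D = D.trace • D - D.det • (1 : M2 F) := by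
  ext i j
  fin_cases i <;> fin_cases j <;>
    simp [Matrix.mul_apply, Fin.sum_univ_two, Matrix.trace_fin_two, Matrix.det_fin_two] <;> ring

/-- The graph, up to scalars, of an injective projective homomorphism. -/
structure Rel (R : M2 F → M2 F → Prop) : Prop where
  mul : ∀ {A D A' D' : M2 F}, R A D → R A' D' → R (A * A') (D * D')
  inv : ∀ {A D : M2 F}, R A D → R A⁻¹ D⁻¹
  det : ∀ {A D : M2 F}, R A D → A.det ≠ 0 ∧ D.det ≠ 0
  smul : ∀ {A D : M2 F} {c : F}, c ≠ 0 → R A D → R (c • A) (c • D)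
  left : ∀ {D : M2 F}, R 1 D → ∃ c : F, D = c • (1 : M2 F)
  right : ∀ {A : M2 F}, R A 1 → ∃ c : F, A = c • (1 : M2 F)
  upper : ∀ a : F, ∃ D, R (U a) D
  lower : ∀ a : F, ∃ D, R (L a) D

namespace Rel

variable {R : M2 F → M2 F → Prop}

lemma isUnit_left (hR : Rel R) {A D : M2 F} (h : R A D) : IsUnit A.det :=
  isUnit_iff_ne_zero.mpr (hR.det h).1

lemma isUnit_right (hR : Rel R) {A D : M2 F} (h : R A D) : IsUnit D.det :=
  isUnit_iff_ne_zero.mpr (hR.det h).2

lemma uniq (hR : Rel R) {A D D' : M2 F} (h : R A D) (h' : R A D') : ∃ c : F, c ≠ 0 ∧ D' = c • D := by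
  have h1 := hR.mul h' (hR.inv h)
  rw [Matrix.mul_nonsing_inv _ (hR.isUnit_left h)] at h1
  obtain ⟨c, hc⟩ := hR.left h1
  refine ⟨c, ?_, ?_⟩
  · rintro rfl
    have := (hR.det h1).2
    rw [hc] at this
    simp at this
  · calc D' = D' * D⁻¹ * D := by
          rw [Matrix.mul_assoc, Matrix.nonsing_inv_mul _ (hR.isUnit_right h), Matrix.mul_one]
      _ = c • D := by rw [hc, Matrix.smul_mul, Matrix.one_mul]

lemma uniq' (hR : Rel R) {A A' D : M2 F} (h : R A D) (h' : R A' D) :
    ∃ c : F, c ≠ 0 ∧ A' = c • A := by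
  have h1 := hR.mul h' (hR.inv h)
  rw [Matrix.mul_nonsing_inv _ (hR.isUnit_right h)] at h1
  obtain ⟨c, hc⟩ := hR.right h1
  refine ⟨c, ?_, ?_⟩
  · rintro rfl
    have := (hR.det h1).1
    rw [hc] at this
    simp at this
  · calc A' = A' * A⁻¹ * A := by
          rw [Matrix.mul_assoc, Matrix.nonsing_inv_mul _ (hR.isUnit_left h), Matrix.mul_one]
      _ = c • A := by rw [hc, Matrix.smul_mul, Matrix.one_mul]

lemma right' (hR : Rel R) {A : M2 F} {d : F} (h : R A (d • (1 : M2 F))) :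
    ∃ c : F, A = c • (1 : M2 F) := by
  have hd : d ≠ 0 := by
    rintro rfl
    have := (hR.det h).2
    simp at this
  have h1 := hR.smul (inv_ne_zero hd) h
  rw [smul_smul, inv_mul_cancel₀ hd, one_smul] at h1
  obtain ⟨c, hc⟩ := hR.right h1
  refine ⟨d * c, ?_⟩
  rw [mul_smul, ← hc, smul_smul, mul_inv_cancel₀ hd, one_smul]

lemma left' (hR : Rel R) {D : M2 F} {d : F} (h : R (d • (1 : M2 F)) D) :
    ∃ c : F, D = c • (1 : M2 F) := by
  have hd : d ≠ 0 := by
    rintro rfl
    have := (hR.det h).1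
    simp at this
  have h1 := hR.smul (inv_ne_zero hd) h
  rw [smul_smul, inv_mul_cancel₀ hd, one_smul] at h1
  obtain ⟨c, hc⟩ := hR.left h1
  refine ⟨d * c, ?_⟩
  rw [mul_smul, ← hc, smul_smul, mul_inv_cancel₀ hd, one_smul]

lemma exists_W (hR : Rel R) {a : F} (ha : a ≠ 0) : ∃ D, R (W a) D := by
  obtain ⟨D1, h1⟩ := hR.upper a
  obtain ⟨D2, h2⟩ := hR.lower (-a⁻¹)
  rw [← ULU ha]
  exact ⟨_, hR.mul (hR.mul h1 h2) h1⟩

lemma exists_H (hR : Rel R) {a : F} (ha : a ≠ 0) : ∃ D, R (H a) D := by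
  obtain ⟨D1, h1⟩ := hR.exists_W ha
  obtain ⟨D2, h2⟩ := hR.exists_W (a := -1) (by simp)
  rw [← WW]
  exact ⟨_, hR.mul h1 h2⟩

lemma U_eq_smul {a b c : F} (h : U a = c • U b) : a = b := by
  have h0 := congrFun (congrFun h 0) 0
  have h1 := congrFun (congrFun h 0) 1
  simp [U] at h0 h1
  rw [← h0] at h1
  simpa using h1

/-- the discriminant of the image of a transvection vanishes -/
lemma disc (hR : Rel R) {t₀ : F} (ht₀ : t₀ ≠ 0) (ht : t₀ ^ 4 ≠ 1) {a : F} (ha : a ≠ 0) {D : M2 F}
    (h : R (U a) D) : D.trace ^ 2 = 4 * D.det := by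
  by_cases htr : D.trace = 0
  · have h2 := hR.mul h h
    rw [U_mul, cayley, htr, zero_smul, zero_sub, ← neg_smul] at h2
    obtain ⟨c, hc⟩ := hR.right' h2
    have h3 := congrFun (congrFun hc 0) 1
    simp [U] at h3
    have h4 : (2 : F) * a = 0 := by rw [← h3]; ring
    have h5 : (2 : F) = 0 := (mul_eq_zero.mp h4).resolve_right ha
    have h6 : (4 : F) = 2 * 2 := by norm_num
    rw [htr, h6, h5]
    ring
  · obtain ⟨E, hE⟩ := hR.exists_H ht₀
    have hEu := hR.isUnit_right hE
    have hHu := hR.isUnit_left hE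
    set D' := E * D * E⁻¹ with hD'
    have h1 : ∀ {b : F} {B : M2 F}, R (U b) B → R (U (t₀ ^ 2 * b)) (E * B * E⁻¹) := by
      intro b B hB
      have := hR.mul (hR.mul hE hB) (hR.inv hE)
      rwa [H_conj_U ht₀, Matrix.mul_assoc (U _), Matrix.mul_nonsing_inv _ hHu,
        Matrix.mul_one] at this
    have hRD' : R (U (t₀ ^ 2 * a)) D' := h1 h
    have hRD'' : R (U (t₀ ^ 2 * (t₀ ^ 2 * a))) (E * D' * E⁻¹) := h1 hRD'
    have htr' : D'.trace = D.trace := by
      rw [hD', Matrix.trace_mul_comm, ← Matrix.mul_assoc, Matrix.nonsing_inv_mul _ hEu,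
        Matrix.one_mul]
    have hdet' : D'.det = D.det := by
      have hE0 : E.det ≠ 0 := (hR.det hE).2
      rw [hD', Matrix.det_mul, Matrix.det_mul, Matrix.det_nonsing_inv, Ring.inverse_eq_inv']
      field_simp
    -- `D` and `D'` commute
    have hcomm : D * D' = D' * D := by
      have e1 := hR.mul h hRD'
      have e2 := hR.mul hRD' h
      rw [U_mul] at e1 e2
      rw [add_comm] at e2
      obtain ⟨c, -, hc⟩ := hR.uniq e2 e1
      have hu := hR.isUnit_right hRD'
      have e3 : D'⁻¹ * (D * D') = c • D := by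
        rw [hc, Matrix.mul_smul, ← Matrix.mul_assoc, Matrix.nonsing_inv_mul _ hu, Matrix.one_mul]
      have e4 : (D'⁻¹ * (D * D')).trace = D.trace := by
        rw [Matrix.trace_mul_comm, Matrix.mul_assoc, Matrix.mul_nonsing_inv _ hu, Matrix.mul_one]
      rw [e3, Matrix.trace_smul, smul_eq_mul] at e4
      have hc1 : c = 1 := by
        have : (c - 1) * D.trace = 0 := by rw [sub_mul, e4]; ring
        rcases mul_eq_zero.mp this with h' | h'
        · exact sub_eq_zero.mp h'
        · exact absurd h' htr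
      rw [hc, hc1, one_smul]
    by_contra hdisc
    set t := D.trace with ht'
    set δ := D.det with hδ
    have cD := cayley D
    have cD' := cayley D'
    rw [htr', hdet'] at cD'
    rw [← ht', ← hδ] at cD
    set X := D' - D with hX
    set Y := D' + D - t • (1 : M2 F) with hY
    have hXY : X * Y = 0 := by
      rw [hX, hY, Matrix.sub_mul, Matrix.mul_sub, Matrix.mul_sub, Matrix.mul_add, Matrix.mul_add,
        cD, cD', hcomm, Matrix.mul_smul, Matrix.mul_smul, Matrix.mul_one, Matrix.mul_one]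
      abel
    have hYX : Y * X = 0 := by
      rw [hX, hY, Matrix.mul_sub, Matrix.sub_mul, Matrix.sub_mul, Matrix.add_mul, Matrix.add_mul,
        cD, cD', hcomm, Matrix.smul_mul, Matrix.smul_mul, Matrix.one_mul, Matrix.one_mul]
      abel
    have htX : X.trace = 0 := by rw [hX, Matrix.trace_sub, htr', sub_self]
    have htY : Y.trace = 0 := by
      rw [hY, Matrix.trace_sub, Matrix.trace_add, htr', Matrix.trace_smul, Matrix.trace_one]
      simp
      ring
    have hcase : X = 0 ∨ Y = 0 := by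
      by_cases hX0 : X.det = 0
      · by_cases hY0 : Y.det = 0
        · exfalso
          have hXX : X * X = 0 := by rw [cayley X, htX, hX0]; simp
          have hYY : Y * Y = 0 := by rw [cayley Y, htY, hY0]; simp
          have e1 : (Y - X) * (Y - X) = 0 := by
            have : (Y - X) * (Y - X) = Y * Y - Y * X - X * Y + X * X := by noncomm_ring
            rw [this, hXX, hYY, hXY, hYX]
            simp
          have e2 : Y - X = (2 : F) • D - t • (1 : M2 F) := by
            rw [hX, hY, two_smul]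
            abel
          have e3 : ((2 : F) • D - t • (1 : M2 F)) * ((2 : F) • D - t • (1 : M2 F)) =
              (t ^ 2 - 4 * δ) • (1 : M2 F) := by
            rw [Matrix.sub_mul, Matrix.mul_sub, Matrix.mul_sub]
            simp only [Matrix.smul_mul, Matrix.mul_smul, Matrix.one_mul, Matrix.mul_one, cD]
            module
          rw [e2, e3] at e1
          have e4 := congrFun (congrFun e1 0) 0
          simp at e4
          exact hdisc (by linear_combination e4)
        · left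
          have hu : IsUnit Y.det := isUnit_iff_ne_zero.mpr hY0
          calc X = X * Y * Y⁻¹ := by
                rw [Matrix.mul_assoc, Matrix.mul_nonsing_inv _ hu, Matrix.mul_one]
            _ = 0 := by rw [hXY, Matrix.zero_mul]
      · right
        have hu : IsUnit X.det := isUnit_iff_ne_zero.mpr hX0
        calc Y = Y * X * X⁻¹ := by
              rw [Matrix.mul_assoc, Matrix.mul_nonsing_inv _ hu, Matrix.mul_one]
          _ = 0 := by rw [hYX, Matrix.zero_mul]
    have hback : E * D' * E⁻¹ = D := by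
      rcases hcase with h0 | h0
      · have e1 : D' = D := by rw [hX] at h0; exact sub_eq_zero.mp h0
        rw [e1, ← hD']
        exact e1
      · have e1 : D' = t • (1 : M2 F) - D := by
          rw [hY] at h0
          have := sub_eq_zero.mp h0
          rw [← this]
          abel
        rw [e1, Matrix.mul_sub, Matrix.sub_mul, ← hD', Matrix.mul_smul, Matrix.mul_one,
          Matrix.smul_mul, Matrix.mul_nonsing_inv _ hEu, e1]
        abel
    rw [hback] at hRD''
    obtain ⟨c, -, hc⟩ := hR.uniq' h hRD''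
    have h5 := U_eq_smul hc
    have h6 : (t₀ ^ 4 - 1) * a = 0 := by linear_combination h5
    rcases mul_eq_zero.mp h6 with h7 | h7
    · exact ht (sub_eq_zero.mp h7)
    · exact ha h7

lemma quot (hR : Rel R) {A D C Z : M2 F} (h : R A D) (h' : R (C * A) (Z * D)) : R C Z := by
  have := hR.mul h' (hR.inv h)
  rwa [Matrix.mul_assoc, Matrix.mul_nonsing_inv _ (hR.isUnit_left h), Matrix.mul_one,
    Matrix.mul_assoc, Matrix.mul_nonsing_inv _ (hR.isUnit_right h), Matrix.mul_one] at this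

lemma scalar_U {a c : F} (h : U a = c • (1 : M2 F)) : a = 0 := by
  have := congrFun (congrFun h 0) 1
  simpa [U] using this

lemma nilp_trace {N : M2 F} (h : N * N = 0) : N.det = 0 ∧ N.trace = 0 := by
  have h1 : N.det = 0 := by
    have := congrArg Matrix.det h
    rw [Matrix.det_mul, Matrix.det_zero] at this
    exact mul_self_eq_zero.mp this
  refine ⟨h1, ?_⟩
  have h2 := cayley N
  rw [h, h1, zero_smul, sub_zero] at h2
  by_contra h3
  have h4 : N = 0 := by
    have := (smul_eq_zero.mp h2.symm).resolve_left h3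
    exact this
  exact h3 (by rw [h4]; simp)

lemma det_one_add {N : M2 F} (h : N * N = 0) : (1 + N).det = 1 := by
  obtain ⟨h1, h2⟩ := nilp_trace h
  rw [Matrix.det_fin_two] at h1 ⊢
  rw [Matrix.trace_fin_two] at h2
  simp
  linear_combination h1 + h2

lemma unip (hR : Rel R) {t₀ : F} (ht₀ : t₀ ≠ 0) (ht : t₀ ^ 4 ≠ 1) {a : F} (ha : a ≠ 0) :
    ∃ (c : F) (N : M2 F), c ≠ 0 ∧ N * N = 0 ∧ N ≠ 0 ∧ R (U a) (c • (1 + N)) := by
  have ht2 : t₀ ^ 2 - 1 ≠ 0 := by
    intro h0
    apply ht
    have : t₀ ^ 2 = 1 := sub_eq_zero.mp h0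
    calc t₀ ^ 4 = (t₀ ^ 2) ^ 2 := by ring
      _ = 1 := by rw [this]; ring
  set b := a / (t₀ ^ 2 - 1) with hb
  have hab : a = (t₀ ^ 2 - 1) * b := by rw [hb]; field_simp
  obtain ⟨B, hB⟩ := hR.upper b
  obtain ⟨E, hE⟩ := hR.exists_H ht₀
  set D := E * B * (B * E)⁻¹ with hD
  have hRD : R (U a) D := by
    have h1 := hR.mul (hR.mul hE hB) (hR.inv (hR.mul hB hE))
    have e1 : H t₀ * U b = U a * (U b * H t₀) := by
      rw [H_conj_U ht₀, ← Matrix.mul_assoc, U_mul, hab]
      congr 2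
      ring
    rwa [e1, Matrix.mul_assoc (U a), Matrix.mul_nonsing_inv _ (hR.isUnit_left (hR.mul hB hE)),
      Matrix.mul_one] at h1
  have hdet : D.det = 1 := by
    have h1 := (hR.det hE).2
    have h2 := (hR.det hB).2
    rw [hD, Matrix.det_mul, Matrix.det_mul, Matrix.det_nonsing_inv, Matrix.det_mul,
      Ring.inverse_eq_inv']
    field_simp
  have hdisc := hR.disc ht₀ ht ha hRD
  rw [hdet, mul_one] at hdisc
  obtain ⟨c, hc1, hc2⟩ : ∃ c : F, c * c = 1 ∧ D.trace = 2 * c := by
    by_cases h2 : (2 : F) = 0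
    · refine ⟨1, by ring, ?_⟩
      have h4 : (4 : F) = 0 := by
        have : (4 : F) = 2 * 2 := by norm_num
        rw [this, h2, mul_zero]
      rw [h2, zero_mul]
      rw [h4] at hdisc
      exact pow_eq_zero_iff (two_ne_zero) |>.mp hdisc
    · refine ⟨D.trace / 2, ?_, by field_simp⟩
      field_simp
      rw [hdisc]
      norm_num
  have hc0 : c ≠ 0 := by
    rintro rfl
    simp at hc1
  refine ⟨c, c • D - 1, hc0, ?_, ?_, ?_⟩
  · have h3 := cayley D
    rw [hdet, hc2] at h3
    have : (c • D - 1) * (c • D - 1) = (c * c) • (D * D) - (2 * c) • D + 1 := by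
      simp only [Matrix.sub_mul, Matrix.mul_sub, Matrix.smul_mul, Matrix.mul_smul, Matrix.one_mul,
        Matrix.mul_one]
      module
    rw [this, h3, hc1]
    module
  · intro h0
    have h3 : c • D = 1 := sub_eq_zero.mp h0
    have h4 : D = c • (1 : M2 F) := by rw [← h3, smul_smul, hc1, one_smul]
    rw [h4] at hRD
    obtain ⟨e, he⟩ := hR.right' hRD
    exact ha (scalar_U he)
  · have : c • (1 + (c • D - 1)) = D := by
      rw [add_sub_cancel, smul_smul, hc1, one_smul]
    rw [this]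
    exact hRD

lemma nilp_comm (hR : Rel R) {a b c c' : F} {N N' : M2 F} (hc : c ≠ 0) (hc' : c' ≠ 0)
    (hN : N * N = 0) (hN' : N' * N' = 0) (h : R (U a) (c • (1 + N)))
    (h' : R (U b) (c' • (1 + N'))) : N * N' = N' * N := by
  have e1 := hR.mul h h'
  have e2 := hR.mul h' h
  rw [U_mul] at e1 e2
  rw [add_comm] at e2
  obtain ⟨e, he, h3⟩ := hR.uniq e2 e1
  have h4 : (1 + N) * (1 + N') = e • ((1 + N') * (1 + N)) := by
    simp only [Matrix.smul_mul, Matrix.mul_smul, smul_smul] at h3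
    have hcc : c * c' ≠ 0 := mul_ne_zero hc hc'
    have : (c * c') • ((1 + N) * (1 + N')) = (c * c') • (e • ((1 + N') * (1 + N))) := by
      rw [smul_smul]
      rw [mul_comm c c'] at h3 ⊢
      rw [mul_comm c' c] at h3 ⊢
      rw [h3]
      congr 1
      ring
    exact smul_right_injective _ hcc this
  have h5 : (1 - N') * (1 + N') = 1 := by
    have : (1 - N') * (1 + N') = 1 - N' * N' := by noncomm_ring
    rw [this, hN', sub_zero]
  have h5' : (1 + N') * (1 - N') = 1 := by
    have : (1 + N') * (1 - N') = 1 - N' * N' := by noncomm_ring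
    rw [this, hN', sub_zero]
  have he2 : e ^ 2 = 1 := by
    have := congrArg Matrix.det h4
    rw [Matrix.det_mul, Matrix.det_smul, Matrix.det_mul, det_one_add hN, det_one_add hN'] at this
    simpa using this.symm
  have he3 : (2 : F) = 2 * e := by
    have h6 : (1 - N') * ((1 + N) * (1 + N')) = e • (1 + N) := by
      rw [h4, Matrix.mul_smul, ← Matrix.mul_assoc, h5, Matrix.one_mul]
    have h7 := congrArg Matrix.trace h6
    rw [Matrix.trace_mul_comm, Matrix.mul_assoc, h5', Matrix.mul_one, Matrix.trace_smul,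
      Matrix.trace_add, Matrix.trace_one, (nilp_trace hN).2] at h7
    simp at h7
    linear_combination h7
  have he1 : e = 1 := by
    have : (e - 1) * (e - 1) = 0 := by linear_combination he2 + he3
    exact sub_eq_zero.mp (mul_self_eq_zero.mp this)
  rw [he1, one_smul] at h4
  have h8 : (1 + N) * (1 + N') = 1 + N + N' + N * N' := by noncomm_ring
  have h9 : (1 + N') * (1 + N) = 1 + N + N' + N' * N := by noncomm_ring
  rw [h8, h9] at h4
  exact add_left_cancel h4

/-- change of basis -/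
lemma conj (hR : Rel R) {Q : M2 F} (hQ : Q.det ≠ 0) : Rel (fun A D => R A (Q * D * Q⁻¹)) := by
  have hu : IsUnit Q.det := isUnit_iff_ne_zero.mpr hQ
  have e1 : ∀ D D' : M2 F, Q * (D * D') * Q⁻¹ = Q * D * Q⁻¹ * (Q * D' * Q⁻¹) := by
    intro D D'
    calc Q * (D * D') * Q⁻¹ = Q * D * (1 * D') * Q⁻¹ := by
          rw [Matrix.one_mul, Matrix.mul_assoc Q D D']
      _ = Q * D * (Q⁻¹ * Q * D') * Q⁻¹ := by rw [Matrix.nonsing_inv_mul _ hu]
      _ = _ := by simp only [Matrix.mul_assoc]
  have e2 : ∀ D : M2 F, (Q * D * Q⁻¹).det = D.det := by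
    intro D
    rw [Matrix.det_mul, Matrix.det_mul, Matrix.det_nonsing_inv, Ring.inverse_eq_inv']
    field_simp
  have e3 : ∀ (c : F) (D : M2 F), Q * (c • D) * Q⁻¹ = c • (Q * D * Q⁻¹) := by
    intro c D
    rw [Matrix.mul_smul, Matrix.smul_mul]
  have e4 : Q * (1 : M2 F) * Q⁻¹ = 1 := by
    rw [Matrix.mul_one, Matrix.mul_nonsing_inv _ hu]
  have e5 : ∀ D : M2 F, Q⁻¹ * (Q * D * Q⁻¹) * Q = D := by
    intro D
    calc Q⁻¹ * (Q * D * Q⁻¹) * Q = (Q⁻¹ * Q) * D * (Q⁻¹ * Q) := by simp only [Matrix.mul_assoc]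
      _ = D := by rw [Matrix.nonsing_inv_mul _ hu, Matrix.one_mul, Matrix.mul_one]
  have e6 : ∀ D : M2 F, Q * (Q⁻¹ * D * Q) * Q⁻¹ = D := by
    intro D
    calc Q * (Q⁻¹ * D * Q) * Q⁻¹ = (Q * Q⁻¹) * D * (Q * Q⁻¹) := by simp only [Matrix.mul_assoc]
      _ = D := by rw [Matrix.mul_nonsing_inv _ hu, Matrix.one_mul, Matrix.mul_one]
  refine ⟨?_, ?_, ?_, ?_, ?_, ?_, ?_, ?_⟩
  · intro A D A' D' h h'
    rw [e1]
    exact hR.mul h h'
  · intro A D h
    have h1 := hR.inv h
    have h2 : (Q * D * Q⁻¹)⁻¹ = Q * D⁻¹ * Q⁻¹ := by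
      apply Matrix.inv_eq_right_inv
      have hD : IsUnit D.det := by
        rw [← e2 D]
        exact hR.isUnit_right h
      rw [← e1, Matrix.mul_nonsing_inv _ hD, e4]
    rwa [h2] at h1
  · intro A D h
    have := hR.det h
    rwa [e2] at this
  · intro A D c hc h
    rw [e3]
    exact hR.smul hc h
  · intro D h
    obtain ⟨c, hc⟩ := hR.left h
    refine ⟨c, ?_⟩
    rw [← e5 D, hc, Matrix.mul_smul, Matrix.smul_mul, Matrix.mul_one, Matrix.nonsing_inv_mul _ hu]
  · intro A h
    rw [e4] at h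
    exact hR.right h
  · intro a
    obtain ⟨D, h⟩ := hR.upper a
    exact ⟨Q⁻¹ * D * Q, by rwa [e6]⟩
  · intro a
    obtain ⟨D, h⟩ := hR.lower a
    exact ⟨Q⁻¹ * D * Q, by rwa [e6]⟩

lemma exists_normal {N : M2 F} (hN : N * N = 0) (hN0 : N ≠ 0) :
    ∃ Q : M2 F, Q.det ≠ 0 ∧ N * Q = Q * !![0, 1; 0, 0] := by
  obtain ⟨h1, h2⟩ := nilp_trace hN
  obtain ⟨p, q, r, s, rfl⟩ : ∃ p q r s, N = !![p, q; r, s] :=
    ⟨N 0 0, N 0 1, N 1 0, N 1 1, by ext i j; fin_cases i <;> fin_cases j <;> rfl⟩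
  simp [Matrix.det_fin_two] at h1
  simp [Matrix.trace_fin_two] at h2
  by_cases hr : r = 0
  · subst hr
    have hp : p = 0 := by
      have hs : s = -p := by linear_combination h2
      rw [hs] at h1
      have : p * p = 0 := by linear_combination -h1
      exact mul_self_eq_zero.mp this
    subst hp
    have hs : s = 0 := by simpa using h2
    subst hs
    have hq : q ≠ 0 := by
      rintro rfl
      apply hN0
      ext i j
      fin_cases i <;> fin_cases j <;> rfl
    refine ⟨!![q, 0; 0, 1], by simp [Matrix.det_fin_two, hq], ?_⟩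
    ext i j
    fin_cases i <;> fin_cases j <;> simp
  · refine ⟨!![p, 1; r, 0], by simp [Matrix.det_fin_two, hr], ?_⟩
    simp
    constructor
    · linear_combination p * h2 - h1
    · linear_combination r * h2

lemma one_add_smul_single (y : F) : 1 + y • (!![0, 1; 0, 0] : M2 F) = U y := by
  ext i j
  fin_cases i <;> fin_cases j <;> simp [U]

/-- all transvections act as upper triangular matrices in a suitable basis -/
lemma normal_upper (hR : Rel R) {t₀ : F} (ht₀ : t₀ ≠ 0) (ht : t₀ ^ 4 ≠ 1) :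
    ∃ Q : M2 F, Q.det ≠ 0 ∧ (∃ c : F, c ≠ 0 ∧ R (U 1) (Q * (c • U 1) * Q⁻¹)) ∧
      ∀ a : F, ∃ c y : F, c ≠ 0 ∧ R (U a) (Q * (c • U y) * Q⁻¹) := by
  obtain ⟨c, N, hc, hN, hN0, h⟩ := hR.unip ht₀ ht (a := 1) one_ne_zero
  obtain ⟨Q, hQ, hQN⟩ := exists_normal hN hN0
  have hu : IsUnit Q.det := isUnit_iff_ne_zero.mpr hQ
  have e1 : ∀ (c y : F), Q * (c • U y) * Q⁻¹ = c • (1 + y • N) := by
    intro c y
    rw [← one_add_smul_single, Matrix.mul_smul, Matrix.smul_mul, Matrix.mul_add, Matrix.mul_smul,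
      ← hQN, Matrix.add_mul, Matrix.mul_one, Matrix.mul_nonsing_inv _ hu, Matrix.smul_mul,
      Matrix.mul_assoc, Matrix.mul_nonsing_inv _ hu, Matrix.mul_one]
  refine ⟨Q, hQ, ⟨c, hc, by rw [e1, one_smul]; exact h⟩, ?_⟩
  intro a
  by_cases ha : a = 0
  · subst ha
    refine ⟨1, 0, one_ne_zero, ?_⟩
    rw [e1, zero_smul, add_zero, one_smul, U_zero]
    have := hR.mul h (hR.inv h)
    rwa [Matrix.mul_nonsing_inv _ (hR.isUnit_left h),
      Matrix.mul_nonsing_inv _ (hR.isUnit_right h)] at this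
  · obtain ⟨c', N', hc', hN', -, h'⟩ := hR.unip ht₀ ht ha
    have hcomm := hR.nilp_comm hc hc' hN hN' h h'
    -- `N'` is a multiple of `N`
    obtain ⟨y, hy⟩ : ∃ y : F, N' = y • N := by
      set M := Q⁻¹ * N' * Q with hM
      have hQM : Q * M = N' * Q := by
        rw [hM, ← Matrix.mul_assoc, ← Matrix.mul_assoc, Matrix.mul_nonsing_inv _ hu,
          Matrix.one_mul]
      have hM' : N' = Q * M * Q⁻¹ := by
        rw [hQM, Matrix.mul_assoc, Matrix.mul_nonsing_inv _ hu, Matrix.mul_one]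
      have hM2 : M * M = 0 := by
        calc M * M = Q⁻¹ * N' * (Q * M) := by rw [hM]; simp only [Matrix.mul_assoc]
          _ = Q⁻¹ * (N' * N') * Q := by rw [hQM]; simp only [Matrix.mul_assoc]
          _ = 0 := by rw [hN']; simp
      have hMc : M * !![0, 1; 0, 0] = !![0, 1; 0, 0] * M := by
        have : Q * (M * !![0, 1; 0, 0]) = Q * (!![0, 1; 0, 0] * M) := by
          rw [← Matrix.mul_assoc, hQM, Matrix.mul_assoc, ← hQN, ← Matrix.mul_assoc, ← hcomm,
            Matrix.mul_assoc, ← hQM, ← Matrix.mul_assoc, hQN, Matrix.mul_assoc]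
        calc M * !![0, 1; 0, 0] = Q⁻¹ * (Q * (M * !![0, 1; 0, 0])) := by
              rw [← Matrix.mul_assoc Q⁻¹, Matrix.nonsing_inv_mul _ hu, Matrix.one_mul]
          _ = _ := by
              rw [this, ← Matrix.mul_assoc Q⁻¹, Matrix.nonsing_inv_mul _ hu, Matrix.one_mul]
      obtain ⟨p, q, r, s, hMe⟩ : ∃ p q r s, M = !![p, q; r, s] :=
        ⟨M 0 0, M 0 1, M 1 0, M 1 1, by ext i j; fin_cases i <;> fin_cases j <;> rfl⟩
      have h00 := congrFun (congrFun hMc 0) 0
      have h01 := congrFun (congrFun hMc 0) 1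
      have g00 := congrFun (congrFun hM2 0) 0
      rw [hMe] at h00 h01 g00
      simp at h00 h01 g00
      have hr : r = 0 := h00.symm
      subst hr
      have hp : p = 0 := by simpa using g00
      subst hp
      have hs : s = 0 := h01.symm
      subst hs
      refine ⟨q, ?_⟩
      have hMq : M = q • !![0, 1; 0, 0] := by
        rw [hMe]
        ext i j
        fin_cases i <;> fin_cases j <;> simp
      rw [hM', hMq, Matrix.mul_smul, Matrix.smul_mul, ← hQN, Matrix.mul_assoc,
        Matrix.mul_nonsing_inv _ hu, Matrix.mul_one]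
    refine ⟨c', y, hc', ?_⟩
    rw [e1, ← hy]
    exact h'

lemma smul_U_inj {c c' y y' e : F} (h : c • U y = e • (c' • U y')) :
    y = y' ∨ c = 0 := by
  have h0 := congrFun (congrFun h 0) 0
  have h1 := congrFun (congrFun h 0) 1
  simp [U] at h0 h1
  by_cases hc : c = 0
  · exact Or.inr hc
  · left
    have : c * y = c * y' := by rw [h1, h0]; ring
    exact mul_left_cancel₀ hc this

/-- Normalised data: transvections act as upper unipotent matrices and the Weyl element moves the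
fixed line to the second coordinate axis. -/
lemma normal_core (hR : Rel R) {t₀ : F} (ht₀ : t₀ ≠ 0) (ht : t₀ ^ 4 ≠ 1)
    (h1 : ∃ c : F, c ≠ 0 ∧ R (U 1) (c • U 1)) (hU : ∀ a : F, ∃ c y : F, c ≠ 0 ∧ R (U a) (c • U y))
    {D : M2 F} (hW : R (W 1) D) (hD : D 0 0 = 0) :
    ∃ σ : F →+* F, (∀ a, R (U a) (U (σ a))) ∧ ∀ a, R (L a) (L (σ a)) := by
  choose γ σ hγ hσ using hU
  -- uniqueness
  have huniq : ∀ {a c y : F}, c ≠ 0 → R (U a) (c • U y) → y = σ a := by
    intro a c y hc h
    obtain ⟨e, -, he⟩ := hR.uniq (hσ a) h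
    exact (smul_U_inj he).resolve_right hc
  have hσ1 : σ 1 = 1 := by
    obtain ⟨c, hc, h⟩ := h1
    exact (huniq hc h).symm
  have hadd : ∀ a b, σ (a + b) = σ a + σ b := by
    intro a b
    have h := hR.mul (hσ a) (hσ b)
    rw [U_mul, Matrix.smul_mul, Matrix.mul_smul, smul_smul, U_mul] at h
    exact (huniq (mul_ne_zero (hγ a) (hγ b)) h).symm
  have hσ0 : σ 0 = 0 := by
    have := hadd 0 0
    rw [add_zero] at this
    linear_combination -this
  have hneg : ∀ a, σ (-a) = -σ a := by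
    intro a
    have := hadd a (-a)
    rw [add_neg_cancel, hσ0] at this
    linear_combination -this
  have hinj : ∀ a, σ a = 0 → a = 0 := by
    intro a ha
    have h := hσ a
    rw [ha, U_zero] at h
    obtain ⟨c, hc⟩ := hR.right' h
    exact scalar_U hc
  -- the Weyl element
  obtain ⟨q, r, s, rfl⟩ : ∃ q r s, D = !![0, q; r, s] :=
    ⟨D 0 1, D 1 0, D 1 1, by ext i j; fin_cases i <;> fin_cases j <;> first | exact hD | rfl⟩
  have hdet := (hR.det hW).2
  rw [Matrix.det_fin_two] at hdet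
  simp at hdet
  obtain ⟨hq, hr⟩ := hdet
  -- lower unipotents
  have hL0 : ∀ b : F, R (L b) (γ (-b) • L ((-r / q) * σ b)) := by
    intro b
    have e1 := hR.mul hW (hσ (-b))
    have e2 : W 1 * U (-b) = L b * W (1 : F) := by simp [W, U, L]
    have e3 : !![0, q; r, s] * (γ (-b) • U (σ (-b))) =
        (γ (-b) • L ((-r / q) * σ b)) * !![0, q; r, s] := by
      rw [Matrix.mul_smul, Matrix.smul_mul, hneg]
      congr 1
      simp [U, L]
      field_simp
    rw [e2, e3] at e1
    exact hR.quot hW e1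
  -- the constant is one
  have hκ : -r / q = 1 := by
    have e1 := hR.mul (hR.mul (hσ 1) (hL0 (-1))) (hσ 1)
    have e2 : U 1 * L (-1) * U (1 : F) = W 1 := by
      have := ULU (F := F) (a := 1) one_ne_zero
      simpa using this
    rw [e2] at e1
    obtain ⟨e, -, he⟩ := hR.uniq hW e1
    have h00 := congrFun (congrFun he 0) 0
    simp only [hσ1, neg_neg, hneg, Matrix.smul_mul, Matrix.mul_smul, Matrix.smul_apply, U, L,
      smul_eq_mul] at h00
    simp at h00
    have h3 := hγ 1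
    rcases h00 with h00 | h00
    · exact absurd h00 h3
    · linear_combination -h00
  have hL : ∀ b : F, R (L b) (γ (-b) • L (σ b)) := by
    intro b
    have := hL0 b
    rwa [hκ, one_mul] at this
  -- inverses
  have hinv : ∀ a : F, a ≠ 0 → σ a * σ a⁻¹ = 1 ∧ ∃ c : F, c ≠ 0 ∧ R (W a) (c • W (σ a)) := by
    intro a ha
    have e1 := hR.mul (hR.mul (hσ a) (hL (-a⁻¹))) (hσ a)
    rw [ULU ha, hneg] at e1
    simp only [Matrix.smul_mul, Matrix.mul_smul, smul_smul, neg_neg] at e1
    set M := U (σ a) * L (-σ a⁻¹) * U (σ a) with hM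
    set c := γ a * (γ a⁻¹ * γ a) with hc
    have hc0 : c ≠ 0 := mul_ne_zero (hγ a) (mul_ne_zero (hγ _) (hγ a))
    have e1' : R (W a) (c • M) := by
      convert e1 using 2
    have hMe : M = !![1 - σ a * σ a⁻¹, 2 * σ a - σ a * (σ a * σ a⁻¹); -σ a⁻¹,
        1 - σ a * σ a⁻¹] := by
      rw [hM]
      ext i j
      fin_cases i <;> fin_cases j <;> simp [U, L] <;> ring
    -- `W a` conjugates upper unipotents to lower unipotents
    have e2 : W a * U 1 = L (-a⁻¹ ^ 2) * W a := by
      simp [W, U, L]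
      field_simp
    have e3 := hR.mul e1' (hσ 1)
    have e4 := hR.mul (hL (-a⁻¹ ^ 2)) e1'
    rw [e2] at e3
    obtain ⟨e, -, he⟩ := hR.uniq e4 e3
    set y := σ (-a⁻¹ ^ 2)
    have h00 := congrFun (congrFun he 0) 0
    have h01 := congrFun (congrFun he 0) 1
    simp only [hσ1, Matrix.smul_mul, Matrix.mul_smul, Matrix.smul_apply, smul_eq_mul, hMe, U,
      L] at h00 h01
    simp at h00 h01
    have hss : σ a * σ a⁻¹ = 1 := by
      by_contra hne
      have hP : 1 - σ a * σ a⁻¹ ≠ 0 := fun h => hne (by linear_combination -h)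
      have hcP : c * (1 - σ a * σ a⁻¹) ≠ 0 := mul_ne_zero hc0 hP
      have hk : γ 1 = e * γ (a ^ 2)⁻¹ := by
        apply mul_right_cancel₀ hcP
        linear_combination h00
      have h6 : γ 1 * (c * (1 - σ a * σ a⁻¹)) = 0 := by
        linear_combination h01 - (c * (2 * σ a - σ a * (σ a * σ a⁻¹))) * hk
      exact (mul_ne_zero (hγ 1) hcP) h6
    refine ⟨hss, c, hc0, ?_⟩
    have : M = W (σ a) := by
      rw [hMe, hss]
      have h5 : σ a⁻¹ = (σ a)⁻¹ := eq_inv_of_mul_eq_one_right hss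
      rw [h5]
      simp [W]
      ring
    rw [← this]
    exact e1'
  have hσne : ∀ a, a ≠ 0 → σ a ≠ 0 := fun a ha h => ha (hinj a h)
  -- diagonal elements
  have hH : ∀ a : F, a ≠ 0 → ∃ c : F, c ≠ 0 ∧ R (H a) (c • H (σ a)) := by
    intro a ha
    obtain ⟨-, c, hc, h⟩ := hinv a ha
    obtain ⟨-, c', hc', h'⟩ := hinv (-1) (by simp)
    have e1 := hR.mul h h'
    rw [WW, hneg, hσ1, Matrix.smul_mul, Matrix.mul_smul, smul_smul, WW] at e1
    exact ⟨c * c', mul_ne_zero hc hc', e1⟩
  have hsq : ∀ a b : F, a ≠ 0 → σ (a ^ 2 * b) = σ a ^ 2 * σ b := by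
    intro a b ha
    obtain ⟨c, hc, h⟩ := hH a ha
    have e1 := hR.mul h (hσ b)
    have e2 : (c • H (σ a)) * (γ b • U (σ b)) =
        (γ b • U (σ a ^ 2 * σ b)) * (c • H (σ a)) := by
      rw [Matrix.smul_mul, Matrix.mul_smul, H_conj_U (hσne a ha), Matrix.smul_mul,
        Matrix.mul_smul, smul_comm]
    rw [H_conj_U ha, e2] at e1
    exact (huniq (hγ b) (hR.quot h e1)).symm
  have hmul : ∀ a b : F, σ (a * b) = σ a * σ b := by
    have hs1 : ∀ a : F, σ (a ^ 2) = σ a ^ 2 := by
      intro a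
      by_cases ha : a = 0
      · rw [ha, hσ0]
        simp [hσ0]
      · have := hsq a 1 ha
        rwa [mul_one, hσ1, mul_one] at this
    intro a b
    by_cases h2 : (2 : F) = 0
    · by_cases ha : a = 0
      · rw [ha, zero_mul, hσ0, zero_mul]
      · have e1 := hs1 (a * b)
        rw [mul_pow, hsq a _ ha, hs1] at e1
        have e3 : (σ (a * b) - σ a * σ b) ^ 2 = 0 := by
          linear_combination (-1 : F) * e1 + (σ a ^ 2 * σ b ^ 2 - σ (a * b) * (σ a * σ b)) * h2
        exact sub_eq_zero.mp (pow_eq_zero_iff two_ne_zero |>.mp e3)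
    · have e1 := hs1 (a + b)
      have e2 : (a + b) ^ 2 = a ^ 2 + b ^ 2 + (a * b + a * b) := by ring
      rw [e2, hadd, hadd, hadd, hadd, hs1, hs1] at e1
      have e3 : 2 * σ (a * b) = 2 * (σ a * σ b) := by linear_combination e1
      exact mul_left_cancel₀ h2 e3
  let σ' : F →+* F :=
    { toFun := σ
      map_one' := hσ1
      map_mul' := hmul
      map_zero' := hσ0
      map_add' := hadd }
  have ht2 : ∀ u : F, u ^ 4 ≠ 1 → u ^ 2 - 1 ≠ 0 := by
    intro u hu h0
    apply hu
    have : u ^ 2 = 1 := sub_eq_zero.mp h0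
    calc u ^ 4 = (u ^ 2) ^ 2 := by ring
      _ = 1 := by rw [this]; ring
  refine ⟨σ', ?_, ?_⟩
  · intro a
    have hd := ht2 t₀ ht
    set b := a / (t₀ ^ 2 - 1) with hb
    have hab : a = (t₀ ^ 2 - 1) * b := by rw [hb]; field_simp
    obtain ⟨c, hc, h⟩ := hH t₀ ht₀
    have e1 := hR.mul h (hσ b)
    have e2 := hR.mul (hσ b) h
    have hσa : σ a = (σ t₀ ^ 2 - 1) * σ b := by
      have : σ' a = (σ' t₀ ^ 2 - 1) * σ' b := by
        conv_lhs => rw [hab]
        simp
      exact this
    have e3 : H t₀ * U b = U a * (U b * H t₀) := by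
      rw [H_conj_U ht₀, ← Matrix.mul_assoc, U_mul]
      congr 2
      rw [hab]
      ring
    have e4 : (c • H (σ t₀)) * (γ b • U (σ b)) =
        U (σ a) * ((γ b • U (σ b)) * (c • H (σ t₀))) := by
      simp only [Matrix.smul_mul, Matrix.mul_smul]
      rw [H_conj_U (hσne _ ht₀), ← Matrix.mul_assoc, U_mul, smul_comm]
      congr 4
      rw [hσa]
      ring
    rw [e3, e4] at e1
    exact hR.quot e2 e1
  · intro a
    have hd := ht2 t₀⁻¹ (by rw [inv_pow]; exact inv_ne_one.mpr ht)
    set b := a / (t₀⁻¹ ^ 2 - 1) with hb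
    have hab : a = (t₀⁻¹ ^ 2 - 1) * b := (mul_div_cancel₀ a hd).symm
    obtain ⟨c, hc, h⟩ := hH t₀ ht₀
    have e1 := hR.mul h (hL b)
    have e2 := hR.mul (hL b) h
    have hσa : σ a = ((σ t₀)⁻¹ ^ 2 - 1) * σ b := by
      have : σ' a = ((σ' t₀)⁻¹ ^ 2 - 1) * σ' b := by
        conv_lhs => rw [hab]
        simp
      exact this
    have e3 : H t₀ * L b = L a * (L b * H t₀) := by
      rw [H_conj_L ht₀, ← Matrix.mul_assoc, L_mul]
      congr 2
      rw [hab]
      ring
    have e4 : (c • H (σ t₀)) * (γ (-b) • L (σ b)) =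
        L (σ a) * ((γ (-b) • L (σ b)) * (c • H (σ t₀))) := by
      simp only [Matrix.smul_mul, Matrix.mul_smul]
      rw [H_conj_L (hσne _ ht₀), ← Matrix.mul_assoc, L_mul, smul_comm]
      congr 4
      rw [hσa]
      ring
    rw [e3, e4] at e1
    exact hR.quot e2 e1

/-- Rigidity: up to a change of basis the relation is given by a field endomorphism. -/
theorem rigid (hR : Rel R) {t₀ : F} (ht₀ : t₀ ≠ 0) (ht : t₀ ^ 4 ≠ 1) :
    ∃ (Q : M2 F) (σ : F →+* F), Q.det ≠ 0 ∧ (∀ a, R (U a) (Q * U (σ a) * Q⁻¹)) ∧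
      ∀ a, R (L a) (Q * L (σ a) * Q⁻¹) := by
  obtain ⟨Q, hQ, h1, hU⟩ := hR.normal_upper ht₀ ht
  have hR' := hR.conj hQ
  set R' : M2 F → M2 F → Prop := fun A D => R A (Q * D * Q⁻¹) with hR'def
  obtain ⟨D, hW⟩ := hR'.exists_W (a := 1) one_ne_zero
  obtain ⟨p, q, r, s, rfl⟩ : ∃ p q r s, D = !![p, q; r, s] :=
    ⟨D 0 0, D 0 1, D 1 0, D 1 1, by ext i j; fin_cases i <;> fin_cases j <;> rfl⟩
  have hr : r ≠ 0 := by
    rintro rfl
    have hdet := (hR'.det hW).2
    simp [Matrix.det_fin_two] at hdet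
    obtain ⟨c', hc', h1'⟩ := h1
    obtain ⟨c, y, hc, h⟩ := hU (-1)
    have e1 := hR'.mul hW h
    have e2 : W 1 * U (-1) = L 1 * W (1 : F) := by simp [W, U, L]
    have e3 : !![p, q; 0, s] * (c • U y) = (c • U (p * y / s)) * !![p, q; 0, s] := by
      rw [Matrix.mul_smul, Matrix.smul_mul]
      congr 1
      have hs := hdet.2
      simp [U]
      field_simp
      ring
    rw [e2, e3] at e1
    have e4 := hR'.quot hW e1
    have e5 := hR'.mul e4 h1'
    have e6 := hR'.mul h1' e4
    rw [Matrix.smul_mul, Matrix.mul_smul, smul_smul, U_mul] at e5 e6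
    rw [mul_comm c' c, add_comm 1] at e6
    obtain ⟨e, -, he⟩ := hR'.uniq' e5 e6
    have h00 := congrFun (congrFun he 0) 0
    have h01 := congrFun (congrFun he 0) 1
    simp [U, L] at h00 h01
    rw [← h01] at h00
    exact one_ne_zero (α := F) (by linear_combination h00)
  have hQ2 : (U (p / r)).det ≠ 0 := by simp [U]
  have hR'' := hR'.conj hQ2
  have hcomm : ∀ (c y x : F), U x * (c • U y) * (U x)⁻¹ = c • U y := by
    intro c y x
    rw [Matrix.mul_smul, Matrix.smul_mul, U_inv, U_mul, U_mul]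
    congr 2
    ring
  obtain ⟨σ, h3, h4⟩ := hR''.normal_core ht₀ ht (by
      obtain ⟨c, hc, h⟩ := h1
      exact ⟨c, hc, by rw [hcomm]; exact h⟩) (by
      intro a
      obtain ⟨c, y, hc, h⟩ := hU a
      exact ⟨c, y, hc, by rw [hcomm]; exact h⟩)
      (D := U (-(p / r)) * !![p, q; r, s] * U (p / r)) (by
        have : U (p / r) * (U (-(p / r)) * !![p, q; r, s] * U (p / r)) * (U (p / r))⁻¹ =
          !![p, q; r, s] := by
          rw [← Matrix.mul_assoc, ← Matrix.mul_assoc, U_mul, add_neg_cancel, U_zero,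
            Matrix.one_mul, Matrix.mul_assoc, U_inv, U_mul, add_neg_cancel, U_zero,
            Matrix.mul_one]
        rw [this]
        exact hW) (by
        simp [U, hr])
  refine ⟨Q * U (p / r), σ, ?_, ?_, ?_⟩
  · rw [Matrix.det_mul]
    exact mul_ne_zero hQ hQ2
  · intro a
    have := h3 a
    simp only [hR'def] at this
    rw [Matrix.mul_inv_rev]
    simpa only [Matrix.mul_assoc] using this
  · intro a
    have := h4 a
    simp only [hR'def] at this
    rw [Matrix.mul_inv_rev]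
    simpa only [Matrix.mul_assoc] using this

end Rel

end Pool.Agent.H93.PG3
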